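import Pool.Agent.Lib.P548b.Los

/-!
# Substitution; cuts of ultraproducts of models are models
-/

set_option autoImplicit false

namespace Pool.Agent.Lib.P548b

variable {ι κ : Type}

/-- Substitution of terms for variables in a term. -/
def Tm.subst {α β : Type} (σ : α → Tm ι β) : Tm ι α → Tm ι β
  | .var a => σ a
  | .zero => .zero
  | .one => .one
  | .add s t => .add (s.subst σ) (t.subst σ)
  | .mul s t => .mul (s.subst σ) (t.subst σ)
  | .fn i t => .fn i (t.subst σ)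

theorem Tm.eval_subst {α β M : Type} (S : Str ι κ M) (σ : α → Tm ι β) (v : β → M) (t : Tm ι α) :
    (t.subst σ).eval S v = t.eval S (fun a => (σ a).eval S v) := by
  induction t with
  | var a => rfl
  | zero => rfl
  | one => rfl
  | add s t ih₁ ih₂ => simp only [Tm.subst, Tm.eval, ih₁, ih₂]
  | mul s t ih₁ ih₂ => simp only [Tm.subst, Tm.eval, ih₁, ih₂]
  | fn i t ih => simp only [Tm.subst, Tm.eval, ih]

/-- Lifting of a substitution under a quantifier. -/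
def liftS {n k : ℕ} (σ : Fin n → Tm ι (Fin k)) : Fin (n + 1) → Tm ι (Fin (k + 1)) :=
  Fin.cons (Tm.var 0) (fun i => (σ i).map Fin.succ)

theorem liftS_eval {n k : ℕ} {M : Type} (S : Str ι κ M) (σ : Fin n → Tm ι (Fin k)) (a : M) (v : Fin k → M) :
    (fun i => (liftS σ i).eval S (Fin.cons a v : Fin (k + 1) → M)) =
      (Fin.cons a (fun i => (σ i).eval S v) : Fin (n + 1) → M) := by
  funext i
  refine Fin.cases ?_ ?_ i
  · rfl
  · intro i
    show ((σ i).map Fin.succ).eval S (Fin.cons a v : Fin (k + 1) → M) = _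
    rw [Tm.eval_map]
    rfl

/-- Substitution of terms for variables in a formula. -/
def Fm.subst : {n : ℕ} → Fm ι κ n → {k : ℕ} → (Fin n → Tm ι (Fin k)) → Fm ι κ k
  | _, .lt s t, _, σ => .lt (s.subst σ) (t.subst σ)
  | _, .eq s t, _, σ => .eq (s.subst σ) (t.subst σ)
  | _, .rel k t, _, σ => .rel k (t.subst σ)
  | _, .not φ, _, σ => .not (φ.subst σ)
  | _, .and φ ψ, _, σ => .and (φ.subst σ) (ψ.subst σ)
  | _, .ex φ, _, σ => .ex (φ.subst (liftS σ))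
  | _, .exB t φ, _, σ => .exB (t.subst σ) (φ.subst (liftS σ))

theorem Fm.sat_subst {M : Type} (S : Str ι κ M) {n : ℕ} (φ : Fm ι κ n) : ∀ {k : ℕ} (σ : Fin n → Tm ι (Fin k)) (v : Fin k → M),
    (φ.subst σ).sat S v ↔ φ.sat S (fun i => (σ i).eval S v) := by
  induction φ with
  | lt s t =>
      intro k σ v
      show S.lt ((s.subst σ).eval S v) ((t.subst σ).eval S v) ↔ _
      rw [Tm.eval_subst, Tm.eval_subst]; exact Iff.rfl
  | eq s t =>
      intro k σ v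
      show (s.subst σ).eval S v = (t.subst σ).eval S v ↔ _
      rw [Tm.eval_subst, Tm.eval_subst]; exact Iff.rfl
  | rel k t =>
      intro k' σ v
      show S.rel k ((t.subst σ).eval S v) ↔ _
      rw [Tm.eval_subst]; exact Iff.rfl
  | not φ ih =>
      intro k σ v
      exact not_congr (ih σ v)
  | and φ ψ ih₁ ih₂ =>
      intro k σ v
      exact and_congr (ih₁ σ v) (ih₂ σ v)
  | ex φ ih =>
      intro k σ v
      refine exists_congr (fun a => ?_)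
      rw [ih, liftS_eval]
  | exB t φ ih =>
      intro k σ v
      refine exists_congr (fun a => and_congr ?_ ?_)
      · rw [Tm.eval_subst]
      · rw [ih, liftS_eval]

theorem Fm.bounded_subst {n : ℕ} (φ : Fm ι κ n) (h : φ.Bounded) : ∀ {k : ℕ} (σ : Fin n → Tm ι (Fin k)), (φ.subst σ).Bounded := by
  induction φ with
  | lt s t => intro k σ; trivial
  | eq s t => intro k σ; trivial
  | rel k t => intro k' σ; trivial
  | not φ ih => intro k σ; exact ih h σ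
  | and φ ψ ih₁ ih₂ => intro k σ; exact ⟨ih₁ h.1 σ, ih₂ h.2 σ⟩
  | ex φ ih => exact h.elim
  | exB t φ ih => intro k σ; exact ih h (liftS σ)

/-- Implication. -/
def Fm.imp {n : ℕ} (φ ψ : Fm ι κ n) : Fm ι κ n := Fm.not (Fm.and φ (Fm.not ψ))

theorem Fm.sat_imp {M : Type} (S : Str ι κ M) {n : ℕ} (φ ψ : Fm ι κ n) (v : Fin n → M) :
    (φ.imp ψ).sat S v ↔ (φ.sat S v → ψ.sat S v) := by
  show ¬ (φ.sat S v ∧ ¬ ψ.sat S v) ↔ _
  exact not_and_not_right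

theorem Fm.bounded_imp {n : ℕ} (φ ψ : Fm ι κ n) (h₁ : φ.Bounded) (h₂ : ψ.Bounded) : (φ.imp ψ).Bounded := ⟨h₁, h₂⟩

/-- Disjunction. -/
def Fm.or {n : ℕ} (φ ψ : Fm ι κ n) : Fm ι κ n := Fm.not (Fm.and (Fm.not φ) (Fm.not ψ))

theorem Fm.sat_or {M : Type} (S : Str ι κ M) {n : ℕ} (φ ψ : Fm ι κ n) (v : Fin n → M) :
    (φ.or ψ).sat S v ↔ (φ.sat S v ∨ ψ.sat S v) := by
  show ¬ (¬ φ.sat S v ∧ ¬ ψ.sat S v) ↔ _
  tauto

theorem Fm.bounded_or {n : ℕ} (φ ψ : Fm ι κ n) (h₁ : φ.Bounded) (h₂ : ψ.Bounded) : (φ.or ψ).Bounded := ⟨h₁, h₂⟩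

theorem Fm.b_lt {n : ℕ} (s t : Tm ι (Fin n)) : (Fm.lt s t : Fm ι κ n).Bounded := trivial

theorem Fm.b_eq {n : ℕ} (s t : Tm ι (Fin n)) : (Fm.eq s t : Fm ι κ n).Bounded := trivial

section axioms

variable {K : Type} {M : ℕ → Type} {N : ∀ j, Str ι κ (M j)} {S : Str ι κ K} (hN : ∀ j, Basic (N j))
  (h : ∀ (n : ℕ) (θ : Fm ι κ n), θ.Bounded → (∀ j (v : Fin n → M j), θ.sat (N j) v) → ∀ v : Fin n → K, θ.sat S v)

include hN h

theorem basic_of_transfer : Basic S where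
  add_assoc x y z := h 3 (Fm.eq (Tm.add (Tm.add (Tm.var 0) (Tm.var 1)) (Tm.var 2)) (Tm.add (Tm.var 0) (Tm.add (Tm.var 1) (Tm.var 2))))
    trivial (fun j v => (hN j).add_assoc (v 0) (v 1) (v 2)) ![x, y, z]
  add_comm x y := h 2 (Fm.eq (Tm.add (Tm.var 0) (Tm.var 1)) (Tm.add (Tm.var 1) (Tm.var 0)))
    trivial (fun j v => (hN j).add_comm (v 0) (v 1)) ![x, y]
  mul_assoc x y z := h 3 (Fm.eq (Tm.mul (Tm.mul (Tm.var 0) (Tm.var 1)) (Tm.var 2)) (Tm.mul (Tm.var 0) (Tm.mul (Tm.var 1) (Tm.var 2))))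
    trivial (fun j v => (hN j).mul_assoc (v 0) (v 1) (v 2)) ![x, y, z]
  mul_comm x y := h 2 (Fm.eq (Tm.mul (Tm.var 0) (Tm.var 1)) (Tm.mul (Tm.var 1) (Tm.var 0)))
    trivial (fun j v => (hN j).mul_comm (v 0) (v 1)) ![x, y]
  mul_add x y z := h 3 (Fm.eq (Tm.mul (Tm.var 0) (Tm.add (Tm.var 1) (Tm.var 2))) (Tm.add (Tm.mul (Tm.var 0) (Tm.var 1)) (Tm.mul (Tm.var 0) (Tm.var 2))))
    trivial (fun j v => (hN j).mul_add (v 0) (v 1) (v 2)) ![x, y, z]
  add_zero x := h 1 (Fm.eq (Tm.add (Tm.var 0) Tm.zero) (Tm.var 0)) trivial (fun j v => (hN j).add_zero (v 0)) ![x]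
  mul_zero x := h 1 (Fm.eq (Tm.mul (Tm.var 0) Tm.zero) Tm.zero) trivial (fun j v => (hN j).mul_zero (v 0)) ![x]
  mul_one x := h 1 (Fm.eq (Tm.mul (Tm.var 0) Tm.one) (Tm.var 0)) trivial (fun j v => (hN j).mul_one (v 0)) ![x]
  lt_trans x y z := by
    have h1 := h 3 ((Fm.lt (Tm.var 0) (Tm.var 1)).imp ((Fm.lt (Tm.var 1) (Tm.var 2)).imp (Fm.lt (Tm.var 0) (Tm.var 2))))
      (Fm.bounded_imp _ _ (Fm.b_lt _ _) (Fm.bounded_imp _ _ (Fm.b_lt _ _) (Fm.b_lt _ _))) (fun j v => by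
        rw [Fm.sat_imp, Fm.sat_imp]
        exact fun a b => (hN j).lt_trans (v 0) (v 1) (v 2) a b) ![x, y, z]
    rw [Fm.sat_imp, Fm.sat_imp] at h1
    exact h1
  lt_irrefl x := h 1 (Fm.not (Fm.lt (Tm.var 0) (Tm.var 0))) trivial (fun j v => (hN j).lt_irrefl (v 0)) ![x]
  lt_total x y := by
    have h1 := h 2 ((Fm.lt (Tm.var 0) (Tm.var 1)).or ((Fm.eq (Tm.var 0) (Tm.var 1)).or (Fm.lt (Tm.var 1) (Tm.var 0))))
      (Fm.bounded_or _ _ (Fm.b_lt _ _) (Fm.bounded_or _ _ (Fm.b_eq _ _) (Fm.b_lt _ _))) (fun j v => by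
        rw [Fm.sat_or, Fm.sat_or]
        exact (hN j).lt_total (v 0) (v 1)) ![x, y]
    rw [Fm.sat_or, Fm.sat_or] at h1
    exact h1
  add_lt_add x y z := by
    have h1 := h 3 ((Fm.lt (Tm.var 0) (Tm.var 1)).imp (Fm.lt (Tm.add (Tm.var 0) (Tm.var 2)) (Tm.add (Tm.var 1) (Tm.var 2))))
      (Fm.bounded_imp _ _ (Fm.b_lt _ _) (Fm.b_lt _ _)) (fun j v => by
        rw [Fm.sat_imp]
        exact fun a => (hN j).add_lt_add (v 0) (v 1) (v 2) a) ![x, y, z]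
    rw [Fm.sat_imp] at h1
    exact h1
  mul_lt_mul x y z := by
    have h1 := h 3 ((Fm.lt Tm.zero (Tm.var 2)).imp ((Fm.lt (Tm.var 0) (Tm.var 1)).imp
        (Fm.lt (Tm.mul (Tm.var 0) (Tm.var 2)) (Tm.mul (Tm.var 1) (Tm.var 2)))))
      (Fm.bounded_imp _ _ (Fm.b_lt _ _) (Fm.bounded_imp _ _ (Fm.b_lt _ _) (Fm.b_lt _ _))) (fun j v => by
        rw [Fm.sat_imp, Fm.sat_imp]
        exact fun a b => (hN j).mul_lt_mul (v 0) (v 1) (v 2) a b) ![x, y, z]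
    rw [Fm.sat_imp, Fm.sat_imp] at h1
    exact h1
  sub x y := by
    have h1 := h 2 ((Fm.lt (Tm.var 0) (Tm.var 1)).imp (Fm.exB (Tm.add (Tm.var 1) Tm.one) (Fm.eq (Tm.add (Tm.var 1) (Tm.var 0)) (Tm.var 2))))
      (Fm.bounded_imp _ _ (Fm.b_lt _ _) (Fm.b_eq (Tm.add (Tm.var 1) (Tm.var 0)) (Tm.var 2))) (fun j v => by
        rw [Fm.sat_imp]
        intro a
        obtain ⟨z, hz⟩ := (hN j).sub (v 0) (v 1) a
        refine ⟨z, ?_, hz⟩
        show (N j).lt z ((N j).add (v 1) (N j).one)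
        have h2 := (hN j).le_add_left z (v 0)
        rw [hz] at h2
        exact (hN j).lt_of_le_of_lt h2 ((hN j).lt_succ _)) ![x, y]
    rw [Fm.sat_imp] at h1
    intro hxy
    obtain ⟨z, _, hz⟩ := h1 hxy
    exact ⟨z, hz⟩
  zero_lt_one := h 0 (Fm.lt Tm.zero Tm.one) trivial (fun j _ => (hN j).zero_lt_one) ![]
  discrete x := by
    have h1 := h 1 ((Fm.lt Tm.zero (Tm.var 0)).imp ((Fm.eq (Tm.var 0) Tm.one).or (Fm.lt Tm.one (Tm.var 0))))
      (Fm.bounded_imp _ _ (Fm.b_lt _ _) (Fm.bounded_or _ _ (Fm.b_eq _ _) (Fm.b_lt _ _))) (fun j v => by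
        rw [Fm.sat_imp, Fm.sat_or]
        exact fun a => (hN j).discrete (v 0) a) ![x]
    rw [Fm.sat_imp, Fm.sat_or] at h1
    exact h1
  nonneg x := by
    have h1 := h 1 ((Fm.eq (Tm.var 0) Tm.zero).or (Fm.lt Tm.zero (Tm.var 0)))
      (Fm.bounded_or _ _ (Fm.b_eq _ _) (Fm.b_lt _ _)) (fun j v => by
        rw [Fm.sat_or]
        exact (hN j).nonneg (v 0)) ![x]
    rw [Fm.sat_or] at h1
    exact h1

omit hN in
theorem ind_of_transfer (hI : ∀ j, IDelta0 (N j)) (n : ℕ) (φ : Fm ι κ (n + 1)) (hφ : φ.Bounded) (v : Fin n → K)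
    (h0 : φ.sat S (Fin.cons S.zero v : Fin (n + 1) → K))
    (hs : ∀ x : K, φ.sat S (Fin.cons x v : Fin (n + 1) → K) → φ.sat S (Fin.cons (S.add x S.one) v : Fin (n + 1) → K))
    (x : K) : φ.sat S (Fin.cons x v : Fin (n + 1) → K) := by
  let σ₀ : Fin (n + 1) → Tm ι (Fin (n + 1)) := Fin.cons Tm.zero (fun i => Tm.var i.succ)
  let σ₁ : Fin (n + 1) → Tm ι (Fin (n + 2)) := Fin.cons (Tm.var 0) (fun i => Tm.var i.succ.succ)
  let σ₂ : Fin (n + 1) → Tm ι (Fin (n + 2)) := Fin.cons (Tm.add (Tm.var 0) Tm.one) (fun i => Tm.var i.succ.succ)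
  have e₀ : ∀ {L : Type} (S : Str ι κ L) (a : L) (v : Fin n → L), (fun i => (σ₀ i).eval S (Fin.cons a v : Fin (n + 1) → L)) =
      (Fin.cons S.zero v : Fin (n + 1) → L) := by
    intro L S a v
    funext i
    refine Fin.cases ?_ ?_ i
    · rfl
    · intro i; rfl
  have e₁ : ∀ {L : Type} (S : Str ι κ L) (a b : L) (v : Fin n → L),
      (fun i => (σ₁ i).eval S (Fin.cons b (Fin.cons a v : Fin (n + 1) → L) : Fin (n + 2) → L)) = (Fin.cons b v : Fin (n + 1) → L) := by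
    intro L S a b v
    funext i
    refine Fin.cases ?_ ?_ i
    · rfl
    · intro i; rfl
  have e₂ : ∀ {L : Type} (S : Str ι κ L) (a b : L) (v : Fin n → L),
      (fun i => (σ₂ i).eval S (Fin.cons b (Fin.cons a v : Fin (n + 1) → L) : Fin (n + 2) → L)) =
        (Fin.cons (S.add b S.one) v : Fin (n + 1) → L) := by
    intro L S a b v
    funext i
    refine Fin.cases ?_ ?_ i
    · rfl
    · intro i; rfl
  let ψ : Fm ι κ (n + 1) := (Fm.and (φ.subst σ₀) (Fm.not (Fm.exB (Tm.var 0) (Fm.and (φ.subst σ₁) (Fm.not (φ.subst σ₂)))))).imp φ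
  have hψb : ψ.Bounded := by
    refine Fm.bounded_imp _ _ ⟨Fm.bounded_subst φ hφ σ₀, ?_⟩ hφ
    exact ⟨Fm.bounded_subst φ hφ σ₁, Fm.bounded_subst φ hφ σ₂⟩
  have hψ : ∀ {L : Type} (S : Str ι κ L) (a : L) (v : Fin n → L), ψ.sat S (Fin.cons a v : Fin (n + 1) → L) ↔
      ((φ.sat S (Fin.cons S.zero v : Fin (n + 1) → L) ∧ ¬ ∃ b : L, S.lt b a ∧ (φ.sat S (Fin.cons b v : Fin (n + 1) → L) ∧
        ¬ φ.sat S (Fin.cons (S.add b S.one) v : Fin (n + 1) → L))) → φ.sat S (Fin.cons a v : Fin (n + 1) → L)) := by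
    intro L S a v
    rw [Fm.sat_imp]
    show (((φ.subst σ₀).sat S (Fin.cons a v : Fin (n + 1) → L) ∧ ¬ ∃ b : L, S.lt b a ∧
      ((φ.subst σ₁).sat S (Fin.cons b (Fin.cons a v : Fin (n + 1) → L) : Fin (n + 2) → L) ∧
      ¬ (φ.subst σ₂).sat S (Fin.cons b (Fin.cons a v : Fin (n + 1) → L) : Fin (n + 2) → L))) → _) ↔ _
    simp only [Fm.sat_subst, e₀, e₁, e₂]
  have htrue : ∀ j (w : Fin (n + 1) → M j), ψ.sat (N j) w := by
    intro j w
    have hw : w = (Fin.cons (w 0) (fun i => w i.succ) : Fin (n + 1) → M j) := (Fin.cons_self_tail w).symm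
    rw [hw]
    refine (hI j).ind n ψ hψb (fun i => w i.succ) ?_ ?_ (w 0)
    · rw [hψ]
      exact fun h1 => h1.1
    · intro a ha
      rw [hψ] at ha ⊢
      rintro ⟨h1, h2⟩
      have h3 : φ.sat (N j) (Fin.cons a (fun i => w i.succ) : Fin (n + 1) → M j) := by
        refine ha ⟨h1, ?_⟩
        rintro ⟨b, hb, hb2⟩
        exact h2 ⟨b, (hI j).basic.lt_trans _ _ _ hb ((hI j).basic.lt_succ a), hb2⟩
      by_contra hn
      exact h2 ⟨a, (hI j).basic.lt_succ a, h3, hn⟩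
  have h4 := h (n + 1) ψ hψb htrue (Fin.cons x v : Fin (n + 1) → K)
  rw [hψ] at h4
  refine h4 ⟨h0, ?_⟩
  rintro ⟨b, _, h5, h6⟩
  exact h6 (hs b h5)

end axioms

/-- A cut of an ultraproduct of models is a model. -/
theorem mod_cut {K : Type} {M : ℕ → Type} {N : ∀ j, Str ι κ (M j)} {U : Ultrafilter ℕ} {x : ∀ j, M j} {S : Str ι κ K}
    {m : (∀ j, M j) → K} {T : (n : ℕ) → Set (Fm ι κ n)} (hT : ∀ n, ∀ θ ∈ T n, θ.Bounded) (hN : ∀ j, Mod T (N j))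
    (h : IsUlt N U x S m) : Mod T S := by
  have hB : ∀ j, Basic (N j) := fun j => (hN j).idelta0.basic
  have ht : ∀ (n : ℕ) (θ : Fm ι κ n), θ.Bounded → (∀ j (v : Fin n → M j), θ.sat (N j) v) → ∀ v : Fin n → K, θ.sat S v :=
    fun n θ hθ h1 v => transfer hB h θ hθ h1 v
  refine ⟨⟨basic_of_transfer hB ht, ind_of_transfer ht (fun j => (hN j).idelta0)⟩, ?_, ?_⟩
  · intro i a b
    have h1 := ht 2 ((Fm.lt (Tm.var 0) (Tm.var 1)).imp (Fm.not (Fm.lt (Tm.fn i (Tm.var 1)) (Tm.fn i (Tm.var 0)))))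
      (Fm.bounded_imp _ _ (Fm.b_lt _ _) (Fm.b_lt (Tm.fn i (Tm.var 1)) (Tm.fn i (Tm.var 0)))) (fun j v => by
        rw [Fm.sat_imp]
        exact (hN j).mono i (v 0) (v 1)) ![a, b]
    rw [Fm.sat_imp] at h1
    exact h1
  · intro n θ hθ v
    exact ht n θ (hT n θ hθ) (fun j => (hN j).axioms n θ hθ) v

end Pool.Agent.Lib.P548b
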