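import Pool.Agent.Lib.P548b.Defs

/-!
# Auxiliary definitions and order lemmas; bounded elements of ultraproducts
-/

set_option autoImplicit false

namespace Pool.Agent.Lib.P548b

variable {ι κ : Type}

/-- Renaming of variables. -/
def Tm.map {α β : Type} (f : α → β) : Tm ι α → Tm ι β
  | .var a => .var (f a)
  | .zero => .zero
  | .one => .one
  | .add s t => .add (s.map f) (t.map f)
  | .mul s t => .mul (s.map f) (t.map f)
  | .fn i t => .fn i (t.map f)

theorem Tm.eval_map {α β M : Type} (S : Str ι κ M) (f : α → β) (v : β → M) (t : Tm ι α) :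
    (t.map f).eval S v = t.eval S (fun a => v (f a)) := by
  induction t with
  | var a => rfl
  | zero => rfl
  | one => rfl
  | add s t ih₁ ih₂ => simp only [Tm.map, Tm.eval, ih₁, ih₂]
  | mul s t ih₁ ih₂ => simp only [Tm.map, Tm.eval, ih₁, ih₂]
  | fn i t ih => simp only [Tm.map, Tm.eval, ih]

theorem Fm.XB.bounded {n : ℕ} (φ : Fm ι κ n) (h : φ.XB) : φ.Bounded := by
  induction φ with
  | lt s t => trivial
  | eq s t => trivial
  | rel k t => trivial
  | not φ ih => exact ih h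
  | and φ ψ ih₁ ih₂ => exact ⟨ih₁ h.1, ih₂ h.2⟩
  | ex φ ih => exact h.elim
  | exB t φ ih => exact ih h.2

/-- The value of a term in one variable. -/
def Tm.val {M : Type} (S : Str ι κ M) (t : Tm ι Unit) (a : M) : M := t.eval S (fun _ => a)

section order

variable {M : Type} {S : Str ι κ M}

theorem Basic.le_iff (h : Basic S) (a b : M) : ¬ S.lt b a ↔ a = b ∨ S.lt a b := by
  constructor
  · intro h1
    rcases h.lt_total a b with h2 | h2 | h2
    · exact Or.inr h2
    · exact Or.inl h2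
    · exact absurd h2 h1
  · rintro (rfl | h1) h2
    · exact h.lt_irrefl _ h2
    · exact h.lt_irrefl _ (h.lt_trans _ _ _ h1 h2)

theorem Basic.le_refl (h : Basic S) (a : M) : ¬ S.lt a a := h.lt_irrefl a

theorem Basic.lt_of_le_of_lt (h : Basic S) {a b c : M} (h1 : ¬ S.lt b a) (h2 : S.lt b c) : S.lt a c := by
  rcases (h.le_iff a b).1 h1 with rfl | h3
  · exact h2
  · exact h.lt_trans _ _ _ h3 h2

theorem Basic.lt_of_lt_of_le (h : Basic S) {a b c : M} (h1 : S.lt a b) (h2 : ¬ S.lt c b) : S.lt a c := by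
  rcases (h.le_iff b c).1 h2 with rfl | h3
  · exact h1
  · exact h.lt_trans _ _ _ h1 h3

theorem Basic.le_trans (h : Basic S) {a b c : M} (h1 : ¬ S.lt b a) (h2 : ¬ S.lt c b) : ¬ S.lt c a := fun h3 =>
  h1 (h.lt_of_le_of_lt h2 h3)

theorem Basic.le_of_lt (h : Basic S) {a b : M} (h1 : S.lt a b) : ¬ S.lt b a := (h.le_iff a b).2 (Or.inr h1)

theorem Basic.zero_le (h : Basic S) (a : M) : ¬ S.lt a S.zero := by
  rcases h.nonneg a with rfl | h1
  · exact h.lt_irrefl _
  · exact h.le_of_lt h1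

theorem Basic.add_le_add_right (h : Basic S) {a b : M} (h1 : ¬ S.lt b a) (c : M) : ¬ S.lt (S.add b c) (S.add a c) := by
  rcases (h.le_iff a b).1 h1 with rfl | h2
  · exact h.lt_irrefl _
  · exact h.le_of_lt (h.add_lt_add _ _ _ h2)

theorem Basic.add_le_add (h : Basic S) {a b c d : M} (h1 : ¬ S.lt b a) (h2 : ¬ S.lt d c) : ¬ S.lt (S.add b d) (S.add a c) := by
  refine h.le_trans (h.add_le_add_right h1 c) ?_
  rw [h.add_comm b c, h.add_comm b d]
  exact h.add_le_add_right h2 b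

theorem Basic.mul_le_mul_right (h : Basic S) {a b : M} (h1 : ¬ S.lt b a) (c : M) : ¬ S.lt (S.mul b c) (S.mul a c) := by
  rcases h.nonneg c with rfl | hc
  · rw [h.mul_zero, h.mul_zero]; exact h.lt_irrefl _
  · rcases (h.le_iff a b).1 h1 with rfl | h2
    · exact h.lt_irrefl _
    · exact h.le_of_lt (h.mul_lt_mul _ _ _ hc h2)

theorem Basic.mul_le_mul (h : Basic S) {a b c d : M} (h1 : ¬ S.lt b a) (h2 : ¬ S.lt d c) : ¬ S.lt (S.mul b d) (S.mul a c) := by
  refine h.le_trans (h.mul_le_mul_right h1 c) ?_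
  rw [h.mul_comm b c, h.mul_comm b d]
  exact h.mul_le_mul_right h2 b

theorem Basic.lt_succ (h : Basic S) (a : M) : S.lt a (S.add a S.one) := by
  have h1 := h.add_lt_add _ _ a h.zero_lt_one
  rw [h.add_comm S.zero a, h.add_zero, h.add_comm S.one a] at h1
  exact h1

theorem Basic.le_add_right (h : Basic S) (a b : M) : ¬ S.lt (S.add a b) a := by
  have h1 := h.add_le_add (h.le_refl a) (h.zero_le b)
  rw [h.add_zero] at h1
  exact h1

theorem Basic.le_add_left (h : Basic S) (a b : M) : ¬ S.lt (S.add b a) a := by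
  rw [h.add_comm]; exact h.le_add_right a b

end order

/-- The sequence `y` is bounded by a term in `x` almost everywhere. -/
def Bdd {M : ℕ → Type} (N : ∀ j, Str ι κ (M j)) (U : Ultrafilter ℕ) (x y : ∀ j, M j) : Prop :=
  ∃ t : Tm ι Unit, ∀ᶠ j in (U : Filter ℕ), ¬ (N j).lt (t.val (N j) (x j)) (y j)

/-- `S` with the map `m` is the cut of the ultraproduct of the `N j` of all elements bounded by a term in `x`. -/
structure IsUlt {K : Type} {M : ℕ → Type} (N : ∀ j, Str ι κ (M j)) (U : Ultrafilter ℕ) (x : ∀ j, M j) (S : Str ι κ K)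
    (m : (∀ j, M j) → K) : Prop where
  surj : ∀ a : K, ∃ y : ∀ j, M j, Bdd N U x y ∧ m y = a
  eval : ∀ (n : ℕ) (t : Tm ι (Fin n)) (r : ∀ j, Fin n → M j), (∀ i, Bdd N U x (fun j => r j i)) →
    Bdd N U x (fun j => t.eval (N j) (r j)) ∧
      t.eval S (fun i => m (fun j => r j i)) = m (fun j => t.eval (N j) (r j))
  eq : ∀ y y' : ∀ j, M j, Bdd N U x y → Bdd N U x y' → (m y = m y' ↔ ∀ᶠ j in (U : Filter ℕ), y j = y' j)
  lt : ∀ y y' : ∀ j, M j, Bdd N U x y → Bdd N U x y' → (S.lt (m y) (m y') ↔ ∀ᶠ j in (U : Filter ℕ), (N j).lt (y j) (y' j))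
  rel : ∀ (k : κ) (y : ∀ j, M j), Bdd N U x y → (S.rel k (m y) ↔ ∀ᶠ j in (U : Filter ℕ), (N j).rel k (y j))

/-- The tuples `r`, `r'` satisfy the same x-bounded formulas of rank at most `q` almost everywhere. -/
def EqR {M M' : ℕ → Type} (N : ∀ j, Str ι κ (M j)) (N' : ∀ j, Str ι κ (M' j)) (U : Ultrafilter ℕ) (q : ℕ) {n : ℕ}
    (r : ∀ j, Fin n → M j) (r' : ∀ j, Fin n → M' j) : Prop :=
  ∀ θ : Fm ι κ n, θ.XB → θ.rk ≤ q →
    ((∀ᶠ j in (U : Filter ℕ), θ.sat (N j) (r j)) ↔ (∀ᶠ j in (U : Filter ℕ), θ.sat (N' j) (r' j)))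

end Pool.Agent.Lib.P548b
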