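import Pool.Agent.Lib.P548b.Base

/-!
# Module Count: countability of terms and formulas
-/

set_option autoImplicit false

namespace Pool.Agent.Lib.P548b

/-- A code of a term as a list of symbols (prefix notation). -/
def Tm.code {ι α : Type} : Tm ι α → List (ℕ ⊕ (ι ⊕ α))
  | .var a => [Sum.inr (Sum.inr a)]
  | .zero => [Sum.inl 0]
  | .one => [Sum.inl 1]
  | .add s t => Sum.inl 2 :: (s.code ++ t.code)
  | .mul s t => Sum.inl 3 :: (s.code ++ t.code)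
  | .fn i t => Sum.inr (Sum.inl i) :: t.code

theorem Tm.code_prefix {ι α : Type} (s : Tm ι α) : ∀ (t : Tm ι α) (u u' : List (ℕ ⊕ (ι ⊕ α))),
    s.code ++ u = t.code ++ u' → s = t ∧ u = u' := by
  induction s with
  | var a =>
      intro t u u' h
      cases t <;> simp [Tm.code] at h ⊢
      exact h
  | zero =>
      intro t u u' h
      cases t <;> simp [Tm.code] at h ⊢
      exact h
  | one =>
      intro t u u' h
      cases t <;> simp [Tm.code] at h ⊢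
      exact h
  | add s₁ s₂ ih₁ ih₂ =>
      intro t u u' h
      cases t <;> simp [Tm.code] at h ⊢
      obtain ⟨e1, e2⟩ := ih₁ _ _ _ h
      obtain ⟨e3, e4⟩ := ih₂ _ _ _ e2
      exact ⟨⟨e1, e3⟩, e4⟩
  | mul s₁ s₂ ih₁ ih₂ =>
      intro t u u' h
      cases t <;> simp [Tm.code] at h ⊢
      obtain ⟨e1, e2⟩ := ih₁ _ _ _ h
      obtain ⟨e3, e4⟩ := ih₂ _ _ _ e2
      exact ⟨⟨e1, e3⟩, e4⟩
  | fn i s ih =>
      intro t u u' h
      cases t <;> simp [Tm.code] at h ⊢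
      obtain ⟨e1, e2⟩ := ih _ _ _ h.2
      exact ⟨⟨h.1, e1⟩, e2⟩

theorem countable_tm (ι α : Type) [Countable ι] [Countable α] : Countable (Tm ι α) := by
  have h : Function.Injective (Tm.code : Tm ι α → List (ℕ ⊕ (ι ⊕ α))) := by
    intro s t hst
    exact (Tm.code_prefix s t [] [] (by rw [hst])).1
  exact h.countable

/-- The set of terms in all numbers of variables. -/
abbrev ATm (ι : Type) : Type := Σ n : ℕ, Tm ι (Fin n)

/-- A code of a formula as a list of symbols (prefix notation). -/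
def Fm.code {ι κ : Type} : {n : ℕ} → Fm ι κ n → List ((ℕ ⊕ κ) ⊕ ATm ι)
  | n, .lt s t => [Sum.inl (Sum.inl 0), Sum.inr ⟨n, s⟩, Sum.inr ⟨n, t⟩]
  | n, .eq s t => [Sum.inl (Sum.inl 1), Sum.inr ⟨n, s⟩, Sum.inr ⟨n, t⟩]
  | n, .rel k t => [Sum.inl (Sum.inr k), Sum.inr ⟨n, t⟩]
  | _, .not φ => Sum.inl (Sum.inl 3) :: φ.code
  | _, .and φ ψ => Sum.inl (Sum.inl 4) :: (φ.code ++ ψ.code)
  | _, .ex φ => Sum.inl (Sum.inl 5) :: φ.code
  | n, .exB t φ => Sum.inl (Sum.inl 6) :: Sum.inr ⟨n, t⟩ :: φ.code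

theorem Fm.code_prefix {ι κ : Type} {n : ℕ} (φ : Fm ι κ n) : ∀ (ψ : Fm ι κ n) (u u' : List ((ℕ ⊕ κ) ⊕ ATm ι)),
    φ.code ++ u = ψ.code ++ u' → φ = ψ ∧ u = u' := by
  induction φ with
  | lt s t =>
      intro ψ u u' h
      cases ψ <;> simp [Fm.code] at h ⊢
      exact ⟨⟨h.1, h.2.1⟩, h.2.2⟩
  | eq s t =>
      intro ψ u u' h
      cases ψ <;> simp [Fm.code] at h ⊢
      exact ⟨⟨h.1, h.2.1⟩, h.2.2⟩
  | rel k t =>
      intro ψ u u' h
      cases ψ <;> simp [Fm.code] at h ⊢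
      exact ⟨⟨h.1, h.2.1⟩, h.2.2⟩
  | not φ ih =>
      intro ψ u u' h
      cases ψ <;> simp [Fm.code] at h ⊢
      exact ih _ _ _ h
  | and φ₁ φ₂ ih₁ ih₂ =>
      intro ψ u u' h
      cases ψ <;> simp [Fm.code] at h ⊢
      obtain ⟨e1, e2⟩ := ih₁ _ _ _ h
      obtain ⟨e3, e4⟩ := ih₂ _ _ _ e2
      exact ⟨⟨e1, e3⟩, e4⟩
  | ex φ ih =>
      intro ψ u u' h
      cases ψ <;> simp [Fm.code] at h ⊢
      exact ih _ _ _ h
  | exB t φ ih =>
      intro ψ u u' h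
      cases ψ <;> simp [Fm.code] at h ⊢
      obtain ⟨e1, e2⟩ := ih _ _ _ h.2
      exact ⟨⟨h.1, e1⟩, e2⟩

theorem countable_fm (ι κ : Type) [Countable ι] [Countable κ] (n : ℕ) : Countable (Fm ι κ n) := by
  have := fun n => countable_tm ι (Fin n)
  have h : Function.Injective (Fm.code : Fm ι κ n → List ((ℕ ⊕ κ) ⊕ ATm ι)) := by
    intro φ ψ hφ
    exact (Fm.code_prefix φ ψ [] [] (by rw [hφ])).1
  exact h.countable

end Pool.Agent.Lib.P548b
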