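import Mathlib

/-!
# Arithmetic in languages with unary predicates and unary function symbols

First-order arithmetic in the language `0, 1, +, ·, <` with unary predicates `P k`, `k : κ`, and unary function symbols `f i`,
`i : ι` (none of them if `κ` and `ι` are empty): bounded formulas, quantifier rank, `IΔ₀`, collection.
-/

set_option autoImplicit false

namespace Pool.Agent.Lib.P548b

/-- Terms in `0, 1, +, ·`, the function symbols `f i` and variables in `α`. -/
inductive Tm (ι α : Type) : Type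
  | var (a : α) : Tm ι α
  | zero : Tm ι α
  | one : Tm ι α
  | add (s t : Tm ι α) : Tm ι α
  | mul (s t : Tm ι α) : Tm ι α
  | fn (i : ι) (t : Tm ι α) : Tm ι α

/-- A structure for the language `0, 1, +, ·, <, P k, f i`. -/
structure Str (ι κ M : Type) where
  zero : M
  one : M
  add : M → M → M
  mul : M → M → M
  fn : ι → M → M
  lt : M → M → Prop
  rel : κ → M → Prop

/-- The value of a term. -/
def Tm.eval {ι κ α M : Type} (S : Str ι κ M) (v : α → M) : Tm ι α → M
  | .var a => v a
  | .zero => S.zero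
  | .one => S.one
  | .add s t => S.add (s.eval S v) (t.eval S v)
  | .mul s t => S.mul (s.eval S v) (t.eval S v)
  | .fn i t => S.fn i (t.eval S v)

/-- Formulas with free variables in `Fin n`; a quantifier binds variable `0` of the formula behind it and the other variables
are moved up by one. `exB t φ` is the bounded quantifier `∃ x < t, φ`, where `t` does not contain `x`. Universal quantifiers,
disjunctions and so on are abbreviations. -/
inductive Fm (ι κ : Type) : ℕ → Type
  | lt {n : ℕ} (s t : Tm ι (Fin n)) : Fm ι κ n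
  | eq {n : ℕ} (s t : Tm ι (Fin n)) : Fm ι κ n
  | rel {n : ℕ} (k : κ) (t : Tm ι (Fin n)) : Fm ι κ n
  | not {n : ℕ} (φ : Fm ι κ n) : Fm ι κ n
  | and {n : ℕ} (φ ψ : Fm ι κ n) : Fm ι κ n
  | ex {n : ℕ} (φ : Fm ι κ (n + 1)) : Fm ι κ n
  | exB {n : ℕ} (t : Tm ι (Fin n)) (φ : Fm ι κ (n + 1)) : Fm ι κ n

/-- Truth of a formula in a structure under an assignment. -/
def Fm.sat {ι κ M : Type} (S : Str ι κ M) : {n : ℕ} → Fm ι κ n → (Fin n → M) → Prop
  | _, .lt s t, v => S.lt (s.eval S v) (t.eval S v)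
  | _, .eq s t, v => s.eval S v = t.eval S v
  | _, .rel k t, v => S.rel k (t.eval S v)
  | _, .not φ, v => ¬ φ.sat S v
  | _, .and φ ψ, v => φ.sat S v ∧ ψ.sat S v
  | _, .ex φ, v => ∃ x : M, φ.sat S (Fin.cons x v : Fin (_ + 1) → M)
  | _, .exB t φ, v => ∃ x : M, S.lt x (t.eval S v) ∧ φ.sat S (Fin.cons x v : Fin (_ + 1) → M)

/-- Bounded formulas: every quantifier is bounded. -/
def Fm.Bounded {ι κ : Type} : {n : ℕ} → Fm ι κ n → Prop
  | _, .lt _ _ => True
  | _, .eq _ _ => True
  | _, .rel _ _ => True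
  | _, .not φ => φ.Bounded
  | _, .and φ ψ => φ.Bounded ∧ ψ.Bounded
  | _, .ex _ => False
  | _, .exB _ φ => φ.Bounded

/-- The quantifier rank: nesting depth of quantifiers, bounded or not. -/
def Fm.rk {ι κ : Type} : {n : ℕ} → Fm ι κ n → ℕ
  | _, .lt _ _ => 0
  | _, .eq _ _ => 0
  | _, .rel _ _ => 0
  | _, .not φ => φ.rk
  | _, .and φ ψ => max φ.rk ψ.rk
  | _, .ex φ => φ.rk + 1
  | _, .exB _ φ => φ.rk + 1

/-- The last variable is the only variable of the term. -/
def Tm.Last {ι : Type} {n : ℕ} : Tm ι (Fin n) → Prop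
  | .var i => i.val + 1 = n
  | .zero => True
  | .one => True
  | .add s t => s.Last ∧ t.Last
  | .mul s t => s.Last ∧ t.Last
  | .fn _ t => t.Last

/-- Every quantifier is bounded by a term in the last free variable (for a formula in one free variable `x`: all quantifiers
are bounded by terms in `x` only). -/
def Fm.XB {ι κ : Type} : {n : ℕ} → Fm ι κ n → Prop
  | _, .lt _ _ => True
  | _, .eq _ _ => True
  | _, .rel _ _ => True
  | _, .not φ => φ.XB
  | _, .and φ ψ => φ.XB ∧ ψ.XB
  | _, .ex _ => False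
  | _, .exB t φ => t.Last ∧ φ.XB

/-- The basic axioms of arithmetic: the structure is the nonnegative part of a discretely ordered commutative ring. -/
structure Basic {ι κ M : Type} (S : Str ι κ M) : Prop where
  add_assoc : ∀ x y z : M, S.add (S.add x y) z = S.add x (S.add y z)
  add_comm : ∀ x y : M, S.add x y = S.add y x
  mul_assoc : ∀ x y z : M, S.mul (S.mul x y) z = S.mul x (S.mul y z)
  mul_comm : ∀ x y : M, S.mul x y = S.mul y x
  mul_add : ∀ x y z : M, S.mul x (S.add y z) = S.add (S.mul x y) (S.mul x z)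
  add_zero : ∀ x : M, S.add x S.zero = x
  mul_zero : ∀ x : M, S.mul x S.zero = S.zero
  mul_one : ∀ x : M, S.mul x S.one = x
  lt_trans : ∀ x y z : M, S.lt x y → S.lt y z → S.lt x z
  lt_irrefl : ∀ x : M, ¬ S.lt x x
  lt_total : ∀ x y : M, S.lt x y ∨ x = y ∨ S.lt y x
  add_lt_add : ∀ x y z : M, S.lt x y → S.lt (S.add x z) (S.add y z)
  mul_lt_mul : ∀ x y z : M, S.lt S.zero z → S.lt x y → S.lt (S.mul x z) (S.mul y z)
  sub : ∀ x y : M, S.lt x y → ∃ z : M, S.add x z = y
  zero_lt_one : S.lt S.zero S.one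
  discrete : ∀ x : M, S.lt S.zero x → x = S.one ∨ S.lt S.one x
  nonneg : ∀ x : M, x = S.zero ∨ S.lt S.zero x

/-- `S` is a model of `IΔ₀`: the basic axioms and the induction scheme for bounded formulas of the language (with
parameters). -/
structure IDelta0 {ι κ M : Type} (S : Str ι κ M) : Prop where
  basic : Basic S
  ind : ∀ (n : ℕ) (φ : Fm ι κ (n + 1)), φ.Bounded → ∀ v : Fin n → M,
    φ.sat S (Fin.cons S.zero v : Fin (n + 1) → M) →
    (∀ x : M, φ.sat S (Fin.cons x v : Fin (n + 1) → M) → φ.sat S (Fin.cons (S.add x S.one) v : Fin (n + 1) → M)) →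
    ∀ x : M, φ.sat S (Fin.cons x v : Fin (n + 1) → M)

/-- The function symbols denote nondecreasing functions. -/
def Mono {ι κ M : Type} (S : Str ι κ M) : Prop := ∀ (i : ι) (x y : M), S.lt x y → ¬ S.lt (S.fn i y) (S.fn i x)

/-- `S` satisfies the collection scheme `BΣ₁` for bounded formulas of the language (with parameters). -/
def Coll {ι κ M : Type} (S : Str ι κ M) : Prop :=
  ∀ (n : ℕ) (φ : Fm ι κ (n + 2)), φ.Bounded → ∀ (v : Fin n → M) (a : M),
    (∀ y : M, S.lt y a → ∃ z : M, φ.sat S (Fin.cons z (Fin.cons y v : Fin (n + 1) → M) : Fin (n + 2) → M)) →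
    ∃ b : M, ∀ y : M, S.lt y a → ∃ z : M, S.lt z b ∧ φ.sat S (Fin.cons z (Fin.cons y v : Fin (n + 1) → M) : Fin (n + 2) → M)

/-- The value of the numeral of `e`. -/
def Str.num {ι κ M : Type} (S : Str ι κ M) : ℕ → M
  | 0 => S.zero
  | e + 1 => S.add (S.num e) S.one

/-- `S` is a model of `IΔ₀` with nondecreasing functions `f i` and of the `Π₁`-sentences `∀ v, θ (v)`, `θ ∈ T`. -/
structure Mod {ι κ M : Type} (T : (n : ℕ) → Set (Fm ι κ n)) (S : Str ι κ M) : Prop where
  idelta0 : IDelta0 S
  mono : Mono S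
  axioms : ∀ (n : ℕ) (θ : Fm ι κ n), θ ∈ T n → ∀ v : Fin n → M, θ.sat S v

end Pool.Agent.Lib.P548b
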