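import Pool.Agent.Lib.P548b.Los

/-!
# Back and forth between cuts of two ultraproducts
-/

set_option autoImplicit false

namespace Pool.Agent.Lib.P548b

variable {ι κ : Type} {M M' : ℕ → Type} {N : ∀ j, Str ι κ (M j)} {N' : ∀ j, Str ι κ (M' j)} {U : Ultrafilter ℕ}
  {x : ∀ j, M j} {x' : ∀ j, M' j}

theorem EqR.symm {q n : ℕ} {r : ∀ j, Fin n → M j} {r' : ∀ j, Fin n → M' j} (h : EqR N N' U q r r') : EqR N' N U q r' r :=
  fun θ h1 h2 => (h θ h1 h2).symm

/-- Finite conjunctions. -/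
def conjF {n : ℕ} (ψ : ℕ → Fm ι κ n) : ℕ → Fm ι κ n
  | 0 => Fm.eq Tm.zero Tm.zero
  | i + 1 => Fm.and (conjF ψ i) (ψ i)

theorem conjF_sat {K : Type} (S : Str ι κ K) {n : ℕ} (ψ : ℕ → Fm ι κ n) (v : Fin n → K) (i : ℕ) :
    (conjF ψ i).sat S v ↔ ∀ l < i, (ψ l).sat S v := by
  induction i with
  | zero => exact ⟨fun _ l hl => absurd hl (Nat.not_lt_zero _), fun _ => rfl⟩
  | succ i ih =>
      show ((conjF ψ i).sat S v ∧ (ψ i).sat S v) ↔ _
      rw [ih]
      constructor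
      · rintro ⟨h1, h2⟩ l hl
        rcases Nat.lt_succ_iff_lt_or_eq.1 hl with h3 | h3
        · exact h1 l h3
        · rw [h3]; exact h2
      · intro h
        exact ⟨fun l hl => h l (Nat.lt_succ_of_lt hl), h i (Nat.lt_succ_self i)⟩

theorem conjF_xb {n : ℕ} (ψ : ℕ → Fm ι κ n) (h : ∀ l, (ψ l).XB) (i : ℕ) : (conjF ψ i).XB := by
  induction i with
  | zero => trivial
  | succ i ih => exact ⟨ih, h i⟩

theorem conjF_rk {n q : ℕ} (ψ : ℕ → Fm ι κ n) (h : ∀ l, (ψ l).rk ≤ q) (i : ℕ) : (conjF ψ i).rk ≤ q := by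
  induction i with
  | zero => exact Nat.zero_le _
  | succ i ih => exact max_le ih (h i)

theorem last_map (t : Tm ι Unit) (n : ℕ) : (t.map (fun _ => Fin.last n)).Last := by
  induction t with
  | var a => exact Fin.val_last n ▸ rfl
  | zero => trivial
  | one => trivial
  | add s t ih₁ ih₂ => exact ⟨ih₁, ih₂⟩
  | mul s t ih₁ ih₂ => exact ⟨ih₁, ih₂⟩
  | fn i t ih => exact ih

theorem val_map {K : Type} (S : Str ι κ K) (t : Tm ι Unit) (n : ℕ) (v : Fin (n + 1) → K) :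
    (t.map (fun _ => Fin.last n)).eval S v = t.val S (v (Fin.last n)) := by
  rw [Tm.eval_map]
  rfl

theorem forth (hN' : ∀ j, Basic (N' j)) (hN : ∀ j, Basic (N j)) (hU : (U : Filter ℕ) ≤ Filter.atTop) {q n : ℕ}
    (hc : Countable (Fm ι κ (n + 2))) (r : ∀ j, Fin (n + 1) → M j) (r' : ∀ j, Fin (n + 1) → M' j)
    (hx : ∀ j, r j (Fin.last n) = x j) (hx' : ∀ j, r' j (Fin.last n) = x' j) (h : EqR N N' U (q + 1) r r')
    (y : ∀ j, M j) (hy : Bdd N U x y) : ∃ y' : ∀ j, M' j, Bdd N' U x' y' ∧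
      EqR N N' U q (fun j => (Fin.cons (y j) (r j) : Fin (n + 2) → M j)) (fun j => (Fin.cons (y' j) (r' j) : Fin (n + 2) → M' j)) := by
  classical
  have : Nonempty (Fm ι κ (n + 2)) := ⟨Fm.eq Tm.zero Tm.zero⟩
  obtain ⟨θ, hθ⟩ := exists_surjective_nat (Fm ι κ (n + 2))
  obtain ⟨t, ht⟩ := hy
  let ψ : ℕ → Fm ι κ (n + 2) := fun i =>
    if (θ i).XB ∧ (θ i).rk ≤ q then
      (if ∀ᶠ j in (U : Filter ℕ), (θ i).sat (N j) (Fin.cons (y j) (r j) : Fin (n + 2) → M j) then θ i else Fm.not (θ i))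
    else Fm.eq Tm.zero Tm.zero
  have hψ1 : ∀ i, (θ i).XB → (θ i).rk ≤ q →
      (∀ᶠ j in (U : Filter ℕ), (θ i).sat (N j) (Fin.cons (y j) (r j) : Fin (n + 2) → M j)) → ψ i = θ i := by
    intro i h1 h2 h3
    simp only [ψ]
    rw [if_pos ⟨h1, h2⟩, if_pos h3]
  have hψ2 : ∀ i, (θ i).XB → (θ i).rk ≤ q →
      (¬ ∀ᶠ j in (U : Filter ℕ), (θ i).sat (N j) (Fin.cons (y j) (r j) : Fin (n + 2) → M j)) → ψ i = Fm.not (θ i) := by
    intro i h1 h2 h3
    simp only [ψ]
    rw [if_pos ⟨h1, h2⟩, if_neg h3]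
  have hψ3 : ∀ i, ¬ ((θ i).XB ∧ (θ i).rk ≤ q) → ψ i = Fm.eq Tm.zero Tm.zero := by
    intro i h1
    simp only [ψ]
    rw [if_neg h1]
  have hψ : ∀ i, (ψ i).XB ∧ (ψ i).rk ≤ q ∧ ∀ᶠ j in (U : Filter ℕ), (ψ i).sat (N j) (Fin.cons (y j) (r j) : Fin (n + 2) → M j) := by
    intro i
    by_cases h1 : (θ i).XB ∧ (θ i).rk ≤ q
    · by_cases h2 : ∀ᶠ j in (U : Filter ℕ), (θ i).sat (N j) (Fin.cons (y j) (r j) : Fin (n + 2) → M j)
      · rw [hψ1 i h1.1 h1.2 h2]
        exact ⟨h1.1, h1.2, h2⟩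
      · rw [hψ2 i h1.1 h1.2 h2]
        refine ⟨h1.1, h1.2, ?_⟩
        rw [← Ultrafilter.eventually_not] at h2
        exact h2
    · rw [hψ3 i h1]
      exact ⟨trivial, Nat.zero_le _, Filter.Eventually.of_forall (fun _ => rfl)⟩
  let χ : ℕ → Fm ι κ (n + 1) := fun i => Fm.exB (Tm.add (t.map (fun _ => Fin.last n)) Tm.one) (conjF ψ i)
  have hχ_sat : ∀ {K : Type} (S : Str ι κ K) i (v : Fin (n + 1) → K), (χ i).sat S v ↔ ∃ z,
      S.lt z (S.add (t.val S (v (Fin.last n))) S.one) ∧ ∀ l < i, (ψ l).sat S (Fin.cons z v : Fin (n + 2) → K) := by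
    intro K S i v
    show (∃ z : K, S.lt z (S.add ((t.map (fun _ => Fin.last n)).eval S v) S.one) ∧
      (conjF ψ i).sat S (Fin.cons z v : Fin (n + 2) → K)) ↔ _
    rw [val_map]
    simp only [conjF_sat]
  have hχ : ∀ i, ∀ᶠ j in (U : Filter ℕ), (χ i).sat (N' j) (r' j) := by
    intro i
    refine (h (χ i) ⟨⟨last_map t n, trivial⟩, conjF_xb ψ (fun l => (hψ l).1) i⟩ ?_).1 ?_
    · exact Nat.succ_le_succ (conjF_rk ψ (fun l => (hψ l).2.1) i)
    · have h1 : ∀ᶠ j in (U : Filter ℕ), (conjF ψ i).sat (N j) (Fin.cons (y j) (r j) : Fin (n + 2) → M j) := by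
        induction i with
        | zero => exact Filter.Eventually.of_forall (fun _ => rfl)
        | succ i ih =>
            filter_upwards [ih, (hψ i).2.2] with j h1 h2
            exact ⟨h1, h2⟩
      filter_upwards [h1, ht] with j h2 h3
      rw [hχ_sat]
      refine ⟨y j, ?_, (conjF_sat (N j) ψ _ i).1 h2⟩
      rw [hx j]
      exact (hN j).lt_of_le_of_lt h3 ((hN j).lt_succ _)
  let P : ℕ → ∀ j, M' j → Prop := fun i j z => (N' j).lt z ((N' j).add (t.val (N' j) (x' j)) (N' j).one) ∧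
    ∀ l < i, (ψ l).sat (N' j) (Fin.cons z (r' j) : Fin (n + 2) → M' j)
  have hP : ∀ i, ∀ᶠ j in (U : Filter ℕ), ∃ z, P i j z := by
    intro i
    filter_upwards [hχ i] with j h1
    rw [hχ_sat, hx' j] at h1
    exact h1
  let g : ℕ → ℕ := fun j => Nat.findGreatest (fun i => ∃ z, P i j z) j
  let y' : ∀ j, M' j := fun j => if hh : ∃ z, P (g j) j z then Classical.choose hh else (N' j).zero
  have hy' : ∀ i, ∀ᶠ j in (U : Filter ℕ), P i j (y' j) := by
    intro i
    have h0 : ∀ᶠ j in (U : Filter ℕ), i ≤ j := hU (Filter.eventually_ge_atTop i)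
    filter_upwards [hP i, h0] with j h1 h2
    have h3 : ∃ z, P (g j) j z := Nat.findGreatest_spec (P := fun i => ∃ z, P i j z) h2 h1
    have h4 : i ≤ g j := Nat.le_findGreatest h2 h1
    have h5 : P (g j) j (y' j) := by
      simp only [y']
      rw [dif_pos h3]
      exact Classical.choose_spec h3
    exact ⟨h5.1, fun l hl => h5.2 l (lt_of_lt_of_le hl h4)⟩
  refine ⟨y', ⟨Tm.add t Tm.one, ?_⟩, ?_⟩
  · filter_upwards [hy' 0] with j h1
    exact (hN' j).le_of_lt h1.1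
  · intro η hη1 hη2
    obtain ⟨i, rfl⟩ := hθ η
    by_cases h2 : ∀ᶠ j in (U : Filter ℕ), (θ i).sat (N j) (Fin.cons (y j) (r j) : Fin (n + 2) → M j)
    · refine ⟨fun _ => ?_, fun _ => h2⟩
      filter_upwards [hy' (i + 1)] with j h3
      have h4 := h3.2 i (Nat.lt_succ_self i)
      rw [hψ1 i hη1 hη2 h2] at h4
      exact h4
    · refine ⟨fun h3 => absurd h3 h2, fun h3 => ?_⟩
      exfalso
      have h5 : ∀ᶠ j in (U : Filter ℕ), ¬ (θ i).sat (N' j) (Fin.cons (y' j) (r' j) : Fin (n + 2) → M' j) := by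
        filter_upwards [hy' (i + 1)] with j h3
        have h4 := h3.2 i (Nat.lt_succ_self i)
        rw [hψ2 i hη1 hη2 h2] at h4
        exact h4
      rw [Ultrafilter.eventually_not] at h5
      exact h5 h3

theorem lt_sat {K : Type} (S : Str ι κ K) {n : ℕ} (t : Tm ι (Fin n)) (a : K) (v : Fin n → K) :
    (Fm.lt (Tm.var 0) (t.map Fin.succ) : Fm ι κ (n + 1)).sat S (Fin.cons a v : Fin (n + 1) → K) ↔ S.lt a (t.eval S v) := by
  show S.lt a ((t.map Fin.succ).eval S (Fin.cons a v : Fin (n + 1) → K)) ↔ _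
  rw [Tm.eval_map]
  simp only [Fin.cons_succ]

theorem game_aux {K K' : Type} {S : Str ι κ K} {S' : Str ι κ K'} {m : (∀ j, M j) → K} {m' : (∀ j, M' j) → K'}
    (hN : ∀ j, Basic (N j)) (hN' : ∀ j, Basic (N' j))
    (hS : IsUlt N U x S m) (hS' : IsUlt N' U x' S' m') (hU : (U : Filter ℕ) ≤ Filter.atTop) (hc : ∀ n, Countable (Fm ι κ n))
    {k : ℕ} (χ : Fm ι κ k) : ∀ q : ℕ, 0 < k → χ.rk ≤ q → ∀ (r : ∀ j, Fin k → M j) (r' : ∀ j, Fin k → M' j),
    (∀ j (i : Fin k), i.val + 1 = k → r j i = x j) → (∀ j (i : Fin k), i.val + 1 = k → r' j i = x' j) →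
    (∀ i, Bdd N U x (fun j => r j i)) → (∀ i, Bdd N' U x' (fun j => r' j i)) → EqR N N' U q r r' →
    (χ.sat S (fun i => m (fun j => r j i)) ↔ χ.sat S' (fun i => m' (fun j => r' j i))) := by
  induction χ with
  | lt s t =>
      intro q _ _ r r' _ _ hr hr' h
      rw [los hN hS (Fm.lt s t) trivial r hr, los hN' hS' (Fm.lt s t) trivial r' hr']
      exact h _ trivial (Nat.zero_le _)
  | eq s t =>
      intro q _ _ r r' _ _ hr hr' h
      rw [los hN hS (Fm.eq s t) trivial r hr, los hN' hS' (Fm.eq s t) trivial r' hr']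
      exact h _ trivial (Nat.zero_le _)
  | rel k t =>
      intro q _ _ r r' _ _ hr hr' h
      rw [los hN hS (Fm.rel k t) trivial r hr, los hN' hS' (Fm.rel k t) trivial r' hr']
      exact h _ trivial (Nat.zero_le _)
  | not φ ih =>
      intro q hk hq r r' hx hx' hr hr' h
      exact not_congr (ih q hk hq r r' hx hx' hr hr' h)
  | and φ ψ ih₁ ih₂ =>
      intro q hk hq r r' hx hx' hr hr' h
      exact and_congr (ih₁ q hk (le_trans (le_max_left _ _) hq) r r' hx hx' hr hr' h)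
        (ih₂ q hk (le_trans (le_max_right _ _) hq) r r' hx hx' hr hr' h)
  | @ex n φ ih =>
      intro q hk hq r r' hx hx' hr hr' h
      simp only [Fm.rk] at hq
      obtain ⟨p, rfl⟩ : ∃ p, q = p + 1 := ⟨q - 1, by omega⟩
      obtain ⟨n', rfl⟩ : ∃ n', n = n' + 1 := ⟨n - 1, by omega⟩
      have hl : ∀ j, r j (Fin.last n') = x j := fun j => hx j _ (by simp)
      have hl' : ∀ j, r' j (Fin.last n') = x' j := fun j => hx' j _ (by simp)
      have hcl : ∀ (z : ∀ j, M j) j (i : Fin (n' + 1 + 1)), i.val + 1 = n' + 1 + 1 →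
          (Fin.cons (z j) (r j) : Fin (n' + 1 + 1) → M j) i = x j := by
        intro z j i hi
        have : i = (Fin.last n').succ := by ext; simp only [Fin.val_succ, Fin.val_last]; omega
        rw [this, Fin.cons_succ]; exact hl j
      have hcl' : ∀ (z : ∀ j, M' j) j (i : Fin (n' + 1 + 1)), i.val + 1 = n' + 1 + 1 →
          (Fin.cons (z j) (r' j) : Fin (n' + 1 + 1) → M' j) i = x' j := by
        intro z j i hi
        have : i = (Fin.last n').succ := by ext; simp only [Fin.val_succ, Fin.val_last]; omega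
        rw [this, Fin.cons_succ]; exact hl' j
      show (∃ a : K, φ.sat S (Fin.cons a _ : Fin (n' + 1 + 1) → K)) ↔ (∃ a : K', φ.sat S' (Fin.cons a _ : Fin (n' + 1 + 1) → K'))
      constructor
      · rintro ⟨a, ha⟩
        obtain ⟨y, hy, rfl⟩ := hS.surj a
        obtain ⟨y', hy', he⟩ := forth hN' hN hU (hc _) r r' hl hl' h y hy
        refine ⟨m' y', ?_⟩
        rw [← cons_m m' y' r']
        rw [← cons_m m y r] at ha
        exact (ih p (Nat.succ_pos _) (by omega) _ _ (hcl y) (hcl' y') (bdd_cons hy hr) (bdd_cons hy' hr') he).1 ha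
      · rintro ⟨a, ha⟩
        obtain ⟨y', hy', rfl⟩ := hS'.surj a
        obtain ⟨y, hy, he⟩ := forth hN hN' hU (hc _) r' r hl' hl h.symm y' hy'
        refine ⟨m y, ?_⟩
        rw [← cons_m m y r]
        rw [← cons_m m' y' r'] at ha
        exact (ih p (Nat.succ_pos _) (by omega) _ _ (hcl y) (hcl' y') (bdd_cons hy hr) (bdd_cons hy' hr') he.symm).2 ha
  | @exB n t φ ih =>
      intro q hk hq r r' hx hx' hr hr' h
      simp only [Fm.rk] at hq
      obtain ⟨p, rfl⟩ : ∃ p, q = p + 1 := ⟨q - 1, by omega⟩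
      obtain ⟨n', rfl⟩ : ∃ n', n = n' + 1 := ⟨n - 1, by omega⟩
      have hl : ∀ j, r j (Fin.last n') = x j := fun j => hx j _ (by simp)
      have hl' : ∀ j, r' j (Fin.last n') = x' j := fun j => hx' j _ (by simp)
      have hcl : ∀ (z : ∀ j, M j) j (i : Fin (n' + 1 + 1)), i.val + 1 = n' + 1 + 1 →
          (Fin.cons (z j) (r j) : Fin (n' + 1 + 1) → M j) i = x j := by
        intro z j i hi
        have : i = (Fin.last n').succ := by ext; simp only [Fin.val_succ, Fin.val_last]; omega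
        rw [this, Fin.cons_succ]; exact hl j
      have hcl' : ∀ (z : ∀ j, M' j) j (i : Fin (n' + 1 + 1)), i.val + 1 = n' + 1 + 1 →
          (Fin.cons (z j) (r' j) : Fin (n' + 1 + 1) → M' j) i = x' j := by
        intro z j i hi
        have : i = (Fin.last n').succ := by ext; simp only [Fin.val_succ, Fin.val_last]; omega
        rw [this, Fin.cons_succ]; exact hl' j
      show (∃ a : K, S.lt a (t.eval S _) ∧ φ.sat S (Fin.cons a _ : Fin (n' + 1 + 1) → K)) ↔
        (∃ a : K', S'.lt a (t.eval S' _) ∧ φ.sat S' (Fin.cons a _ : Fin (n' + 1 + 1) → K'))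
      have hlt : ∀ (y : ∀ j, M j) (y' : ∀ j, M' j), Bdd N U x y → Bdd N' U x' y' →
          EqR N N' U p (fun j => (Fin.cons (y j) (r j) : Fin (n' + 2) → M j)) (fun j => (Fin.cons (y' j) (r' j) : Fin (n' + 2) → M' j)) →
          (S.lt (m y) (t.eval S (fun i => m (fun j => r j i))) ↔ S'.lt (m' y') (t.eval S' (fun i => m' (fun j => r' j i)))) := by
        intro y y' hy hy' he
        have hb : (Fm.lt (Tm.var 0) (t.map Fin.succ) : Fm ι κ (n' + 1 + 1)).Bounded := trivial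
        have hb2 : (Fm.lt (Tm.var 0) (t.map Fin.succ) : Fm ι κ (n' + 1 + 1)).XB := trivial
        rw [← lt_sat S t (m y), ← lt_sat S' t (m' y'), ← cons_m m y r, ← cons_m m' y' r',
          los hN hS _ hb _ (bdd_cons hy hr), los hN' hS' _ hb _ (bdd_cons hy' hr')]
        exact he _ hb2 (Nat.zero_le _)
      constructor
      · rintro ⟨a, hat, ha⟩
        obtain ⟨y, hy, rfl⟩ := hS.surj a
        obtain ⟨y', hy', he⟩ := forth hN' hN hU (hc _) r r' hl hl' h y hy
        refine ⟨m' y', (hlt y y' hy hy' he).1 hat, ?_⟩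
        rw [← cons_m m' y' r']
        rw [← cons_m m y r] at ha
        exact (ih p (Nat.succ_pos _) (by omega) _ _ (hcl y) (hcl' y') (bdd_cons hy hr) (bdd_cons hy' hr') he).1 ha
      · rintro ⟨a, hat, ha⟩
        obtain ⟨y', hy', rfl⟩ := hS'.surj a
        obtain ⟨y, hy, he⟩ := forth hN hN' hU (hc _) r' r hl' hl h.symm y' hy'
        refine ⟨m y, (hlt y y' hy hy' he.symm).2 hat, ?_⟩
        rw [← cons_m m y r]
        rw [← cons_m m' y' r'] at ha
        exact (ih p (Nat.succ_pos _) (by omega) _ _ (hcl y) (hcl' y') (bdd_cons hy hr) (bdd_cons hy' hr') he.symm).2 ha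

theorem game {K K' : Type} {S : Str ι κ K} {S' : Str ι κ K'} {m : (∀ j, M j) → K} {m' : (∀ j, M' j) → K'}
    (hN : ∀ j, Basic (N j)) (hN' : ∀ j, Basic (N' j))
    (hS : IsUlt N U x S m) (hS' : IsUlt N' U x' S' m') (hU : (U : Filter ℕ) ≤ Filter.atTop) (hc : ∀ n, Countable (Fm ι κ n))
    {n : ℕ} (χ : Fm ι κ (n + 1)) (q : ℕ) (hq : χ.rk ≤ q) (r : ∀ j, Fin (n + 1) → M j) (r' : ∀ j, Fin (n + 1) → M' j)
    (hx : ∀ j, r j (Fin.last n) = x j) (hx' : ∀ j, r' j (Fin.last n) = x' j)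
    (hr : ∀ i, Bdd N U x (fun j => r j i)) (hr' : ∀ i, Bdd N' U x' (fun j => r' j i)) (h : EqR N N' U q r r') :
    χ.sat S (fun i => m (fun j => r j i)) ↔ χ.sat S' (fun i => m' (fun j => r' j i)) := by
  refine game_aux hN hN' hS hS' hU hc χ q (Nat.succ_pos _) hq r r' ?_ ?_ hr hr' h
  · intro j i hi
    have : i = Fin.last n := by ext; simp only [Fin.val_last]; omega
    rw [this]; exact hx j
  · intro j i hi
    have : i = Fin.last n := by ext; simp only [Fin.val_last]; omega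
    rw [this]; exact hx' j

end Pool.Agent.Lib.P548b
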