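import Pool.Agent.Lib.P548b.Base

/-!
# Łoś theorem for bounded formulas; transfer of `Π₁`-sentences and collection for cuts of ultraproducts
-/

set_option autoImplicit false

namespace Pool.Agent.Lib.P548b

variable {ι κ K : Type} {M : ℕ → Type} {N : ∀ j, Str ι κ (M j)} {U : Ultrafilter ℕ} {x : ∀ j, M j} {S : Str ι κ K}
  {m : (∀ j, M j) → K}

theorem cons_m (m : (∀ j, M j) → K) (y : ∀ j, M j) {n : ℕ} (r : ∀ j, Fin n → M j) :
    (fun i : Fin (n + 1) => m (fun j => (Fin.cons (y j) (r j) : Fin (n + 1) → M j) i)) =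
      (Fin.cons (m y) (fun i => m (fun j => r j i)) : Fin (n + 1) → K) := by
  funext i
  refine Fin.cases ?_ ?_ i
  · rfl
  · intro i; rfl

theorem bdd_cons {y : ∀ j, M j} (hy : Bdd N U x y) {n : ℕ} {r : ∀ j, Fin n → M j} (hr : ∀ i, Bdd N U x (fun j => r j i)) :
    ∀ i : Fin (n + 1), Bdd N U x (fun j => (Fin.cons (y j) (r j) : Fin (n + 1) → M j) i) := by
  intro i
  refine Fin.cases ?_ ?_ i
  · exact hy
  · intro i; exact hr i

theorem Bdd.of_le (hN : ∀ j, Basic (N j)) {y z : ∀ j, M j} (hz : Bdd N U x z)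
    (h : ∀ᶠ j in (U : Filter ℕ), ¬ (N j).lt (z j) (y j)) : Bdd N U x y := by
  obtain ⟨t, ht⟩ := hz
  refine ⟨t, ?_⟩
  filter_upwards [h, ht] with j h1 h2
  exact (hN j).le_trans h1 h2

theorem los (hN : ∀ j, Basic (N j)) (h : IsUlt N U x S m) {n : ℕ} (θ : Fm ι κ n) (hθ : θ.Bounded) (r : ∀ j, Fin n → M j)
    (hr : ∀ i, Bdd N U x (fun j => r j i)) :
    θ.sat S (fun i => m (fun j => r j i)) ↔ ∀ᶠ j in (U : Filter ℕ), θ.sat (N j) (r j) := by
  induction θ with
  | lt s t =>
      show S.lt (s.eval S _) (t.eval S _) ↔ ∀ᶠ j in (U : Filter ℕ), (N j).lt (s.eval (N j) (r j)) (t.eval (N j) (r j))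
      rw [(h.eval _ s r hr).2, (h.eval _ t r hr).2]
      exact h.lt _ _ (h.eval _ s r hr).1 (h.eval _ t r hr).1
  | eq s t =>
      show s.eval S _ = t.eval S _ ↔ ∀ᶠ j in (U : Filter ℕ), s.eval (N j) (r j) = t.eval (N j) (r j)
      rw [(h.eval _ s r hr).2, (h.eval _ t r hr).2]
      exact h.eq _ _ (h.eval _ s r hr).1 (h.eval _ t r hr).1
  | rel k t =>
      show S.rel k (t.eval S _) ↔ ∀ᶠ j in (U : Filter ℕ), (N j).rel k (t.eval (N j) (r j))
      rw [(h.eval _ t r hr).2]
      exact h.rel k _ (h.eval _ t r hr).1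
  | not φ ih =>
      show ¬ _ ↔ ∀ᶠ j in (U : Filter ℕ), ¬ _
      rw [Ultrafilter.eventually_not, ih hθ r hr]
  | and φ ψ ih₁ ih₂ =>
      show (_ ∧ _) ↔ ∀ᶠ j in (U : Filter ℕ), (_ ∧ _)
      rw [Filter.eventually_and, ih₁ hθ.1 r hr, ih₂ hθ.2 r hr]
  | ex φ ih => exact hθ.elim
  | @exB n t φ ih =>
      have ht := h.eval _ t r hr
      show (∃ a : K, S.lt a (t.eval S _) ∧ φ.sat S (Fin.cons a _ : Fin (n + 1) → K)) ↔
        ∀ᶠ j in (U : Filter ℕ), ∃ y : M j, (N j).lt y (t.eval (N j) (r j)) ∧ φ.sat (N j) (Fin.cons y (r j) : Fin (n + 1) → M j)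
      rw [ht.2]
      constructor
      · rintro ⟨a, ha, hφ⟩
        obtain ⟨y, hy, rfl⟩ := h.surj a
        rw [← cons_m m y r, ih hθ _ (bdd_cons hy hr)] at hφ
        rw [h.lt _ _ hy ht.1] at ha
        filter_upwards [ha, hφ] with j h1 h2
        exact ⟨y j, h1, h2⟩
      · intro hj
        classical
        let y : ∀ j, M j := fun j => if hh : ∃ y : M j, (N j).lt y (t.eval (N j) (r j)) ∧
          φ.sat (N j) (Fin.cons y (r j) : Fin (n + 1) → M j) then Classical.choose hh else (N j).zero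
        have hy : ∀ᶠ j in (U : Filter ℕ), (N j).lt (y j) (t.eval (N j) (r j)) ∧
            φ.sat (N j) (Fin.cons (y j) (r j) : Fin (n + 1) → M j) := by
          filter_upwards [hj] with j hh
          simp only [y]
          rw [dif_pos hh]
          exact Classical.choose_spec hh
        have hyb : Bdd N U x y := ht.1.of_le hN (by filter_upwards [hy] with j h1; exact (hN j).le_of_lt h1.1)
        refine ⟨m y, ?_, ?_⟩
        · rw [h.lt _ _ hyb ht.1]
          filter_upwards [hy] with j h1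
          exact h1.1
        · rw [← cons_m m y r, ih hθ _ (bdd_cons hyb hr)]
          filter_upwards [hy] with j h1
          exact h1.2

theorem bdd_x (hN : ∀ j, Basic (N j)) : Bdd N U x x := ⟨Tm.var (), Filter.Eventually.of_forall (fun j => (hN j).le_refl _)⟩

theorem exists_rep (h : IsUlt N U x S m) {n : ℕ} (v : Fin n → K) :
    ∃ r : ∀ j, Fin n → M j, (∀ i, Bdd N U x (fun j => r j i)) ∧ (fun i => m (fun j => r j i)) = v := by
  choose y hy using fun i => h.surj (v i)
  refine ⟨fun j i => y i j, fun i => (hy i).1, ?_⟩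
  funext i
  exact (hy i).2

/-- Transfer of `Π₁`-sentences. -/
theorem transfer (hN : ∀ j, Basic (N j)) (h : IsUlt N U x S m) {n : ℕ} (θ : Fm ι κ n) (hθ : θ.Bounded)
    (ht : ∀ j (v : Fin n → M j), θ.sat (N j) v) (v : Fin n → K) : θ.sat S v := by
  obtain ⟨r, hr, rfl⟩ := exists_rep h v
  rw [los hN h θ hθ r hr]
  exact Filter.Eventually.of_forall (fun j => ht _ _)

/-- Sums of the first terms of a sequence of terms. -/
def sumT (t : ℕ → Tm ι Unit) : ℕ → Tm ι Unit
  | 0 => Tm.zero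
  | i + 1 => Tm.add (sumT t i) (t i)

theorem sumT_mono {K : Type} {S : Str ι κ K} (hS : Basic S) (t : ℕ → Tm ι Unit) (a : K) {i k : ℕ} (hik : i ≤ k) :
    ¬ S.lt ((sumT t k).val S a) ((sumT t i).val S a) := by
  induction k, hik using Nat.le_induction with
  | base => exact hS.le_refl _
  | succ k _ ih => exact hS.le_trans ih (hS.le_add_right _ _)

theorem le_sumT {K : Type} {S : Str ι κ K} (hS : Basic S) (t : ℕ → Tm ι Unit) (a : K) (i : ℕ) :
    ¬ S.lt ((sumT t (i + 1)).val S a) ((t i).val S a) := hS.le_add_left _ _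

theorem coll (hN : ∀ j, Basic (N j)) (h : IsUlt N U x S m) (hc : Countable (Tm ι Unit))
    (hU : (U : Filter ℕ) ≤ Filter.atTop) : Coll S := by
  classical
  intro n φ hφ v a H
  by_contra hcon
  push Not at hcon
  obtain ⟨r, hr, rfl⟩ := exists_rep h v
  obtain ⟨α, hα, rfl⟩ := h.surj a
  have : Nonempty (Tm ι Unit) := ⟨Tm.zero⟩
  obtain ⟨t, ht⟩ := exists_surjective_nat (Tm ι Unit)
  let b : ℕ → ∀ j, M j := fun i j => (N j).add ((sumT t (i + 1)).val (N j) (x j)) (N j).one
  have hb : ∀ i, Bdd N U x (b i) := fun i => ⟨Tm.add (sumT t (i + 1)) Tm.one, Filter.Eventually.of_forall (fun j => (hN j).le_refl _)⟩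
  let P : ℕ → ∀ j, M j → Prop := fun i j y => (N j).lt y (α j) ∧ ∀ z, (N j).lt z (b i j) →
    ¬ φ.sat (N j) (Fin.cons z (Fin.cons y (r j) : Fin (n + 1) → M j) : Fin (n + 2) → M j)
  have hP : ∀ i, ∀ᶠ j in (U : Filter ℕ), ∃ y, P i j y := by
    intro i
    obtain ⟨y', hy', hz⟩ := hcon (m (b i))
    obtain ⟨y, hy, rfl⟩ := h.surj y'
    rw [h.lt _ _ hy hα] at hy'
    by_contra hn
    rw [← Ultrafilter.eventually_not] at hn
    let z : ∀ j, M j := fun j => if hh : ∃ z, (N j).lt z (b i j) ∧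
      φ.sat (N j) (Fin.cons z (Fin.cons (y j) (r j) : Fin (n + 1) → M j) : Fin (n + 2) → M j) then Classical.choose hh else (N j).zero
    have hz1 : ∀ᶠ j in (U : Filter ℕ), (N j).lt (z j) (b i j) ∧
        φ.sat (N j) (Fin.cons (z j) (Fin.cons (y j) (r j) : Fin (n + 1) → M j) : Fin (n + 2) → M j) := by
      filter_upwards [hn, hy'] with j h1 h2
      have hh : ∃ z, (N j).lt z (b i j) ∧ φ.sat (N j) (Fin.cons z (Fin.cons (y j) (r j) : Fin (n + 1) → M j) : Fin (n + 2) → M j) := by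
        by_contra h3
        apply h1
        refine ⟨y j, h2, ?_⟩
        intro z hz hz2
        exact h3 ⟨z, hz, hz2⟩
      simp only [z]
      rw [dif_pos hh]
      exact Classical.choose_spec hh
    have hzb : Bdd N U x z := (hb i).of_le hN (by filter_upwards [hz1] with j h1; exact (hN j).le_of_lt h1.1)
    refine hz (m z) ?_ ?_
    · rw [h.lt _ _ hzb (hb i)]
      filter_upwards [hz1] with j h1
      exact h1.1
    · rw [← cons_m m y r, ← cons_m m z (fun j => (Fin.cons (y j) (r j) : Fin (n + 1) → M j)),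
        los hN h φ hφ _ (bdd_cons hzb (bdd_cons hy hr))]
      filter_upwards [hz1] with j h1
      exact h1.2
  let g : ℕ → ℕ := fun j => Nat.findGreatest (fun i => ∃ y, P i j y) j
  let y : ∀ j, M j := fun j => if hh : ∃ y, P (g j) j y then Classical.choose hh else (N j).zero
  have hy : ∀ i, ∀ᶠ j in (U : Filter ℕ), P i j (y j) := by
    intro i
    have h0 : ∀ᶠ j in (U : Filter ℕ), i ≤ j := hU (Filter.eventually_ge_atTop i)
    filter_upwards [hP i, h0] with j h1 h2
    have h3 : ∃ y, P (g j) j y := Nat.findGreatest_spec (P := fun i => ∃ y, P i j y) h2 h1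
    have h4 : i ≤ g j := Nat.le_findGreatest h2 h1
    have h5 : P (g j) j (y j) := by
      simp only [y]
      rw [dif_pos h3]
      exact Classical.choose_spec h3
    refine ⟨h5.1, fun z hz => h5.2 z ?_⟩
    exact (hN j).lt_of_lt_of_le hz ((hN j).add_le_add_right (sumT_mono (hN j) t (x j) (by omega)) _)
  have hya : ∀ᶠ j in (U : Filter ℕ), (N j).lt (y j) (α j) := by
    filter_upwards [hy 0] with j h1
    exact h1.1
  have hyb : Bdd N U x y := hα.of_le hN (by filter_upwards [hya] with j h1; exact (hN j).le_of_lt h1)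
  obtain ⟨z', hz'⟩ := H (m y) ((h.lt _ _ hyb hα).2 hya)
  obtain ⟨z, hz, rfl⟩ := h.surj z'
  rw [← cons_m m y r, ← cons_m m z (fun j => (Fin.cons (y j) (r j) : Fin (n + 1) → M j)),
    los hN h φ hφ _ (bdd_cons hz (bdd_cons hyb hr))] at hz'
  obtain ⟨s, hs⟩ := hz
  obtain ⟨i, rfl⟩ := ht s
  have hfalse : ∀ᶠ j in (U : Filter ℕ), False := by
    filter_upwards [hz', hs, hy i] with j h1 h2 h3
    refine h3.2 (z j) ?_ h1
    exact (hN j).lt_of_le_of_lt ((hN j).le_trans h2 (le_sumT (hN j) t (x j) i)) ((hN j).lt_succ _)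
  exact (Filter.eventually_false_iff_eq_bot.1 hfalse) |> U.neBot.ne

end Pool.Agent.Lib.P548b
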