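import Pool.Agent.Lib.P548b.Base

/-!
# Cuts of ultraproducts
-/

set_option autoImplicit false

namespace Pool.Agent.Lib.P548b

variable {ι κ : Type} {M : ℕ → Type} {N : ∀ j, Str ι κ (M j)} {U : Ultrafilter ℕ} {x : ∀ j, M j}

theorem Bdd.zero (hN : ∀ j, Basic (N j)) : Bdd N U x (fun j => (N j).zero) :=
  ⟨Tm.zero, Filter.Eventually.of_forall (fun j => (hN j).le_refl _)⟩

theorem Bdd.one (hN : ∀ j, Basic (N j)) : Bdd N U x (fun j => (N j).one) :=
  ⟨Tm.one, Filter.Eventually.of_forall (fun j => (hN j).le_refl _)⟩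

theorem Bdd.add (hN : ∀ j, Basic (N j)) {y z : ∀ j, M j} (hy : Bdd N U x y) (hz : Bdd N U x z) :
    Bdd N U x (fun j => (N j).add (y j) (z j)) := by
  obtain ⟨s, hs⟩ := hy
  obtain ⟨t, ht⟩ := hz
  refine ⟨Tm.add s t, ?_⟩
  filter_upwards [hs, ht] with j h1 h2
  exact (hN j).add_le_add h1 h2

theorem Bdd.mul (hN : ∀ j, Basic (N j)) {y z : ∀ j, M j} (hy : Bdd N U x y) (hz : Bdd N U x z) :
    Bdd N U x (fun j => (N j).mul (y j) (z j)) := by
  obtain ⟨s, hs⟩ := hy
  obtain ⟨t, ht⟩ := hz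
  refine ⟨Tm.mul s t, ?_⟩
  filter_upwards [hs, ht] with j h1 h2
  exact (hN j).mul_le_mul h1 h2

theorem Bdd.fn (hN : ∀ j, Basic (N j)) (hm : ∀ j, Mono (N j)) {y : ∀ j, M j} (hy : Bdd N U x y) (i : ι) :
    Bdd N U x (fun j => (N j).fn i (y j)) := by
  obtain ⟨s, hs⟩ := hy
  refine ⟨Tm.fn i s, ?_⟩
  filter_upwards [hs] with j h1
  rcases ((hN j).le_iff _ _).1 h1 with h2 | h2
  · show ¬ (N j).lt ((N j).fn i (s.val (N j) (x j))) ((N j).fn i (y j))
    rw [h2]; exact (hN j).le_refl _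
  · exact hm j i _ _ h2

/-- Equality almost everywhere of bounded sequences. -/
def bs (N : ∀ j, Str ι κ (M j)) (U : Ultrafilter ℕ) (x : ∀ j, M j) : Setoid {y : ∀ j, M j // Bdd N U x y} where
  r y y' := ∀ᶠ j in (U : Filter ℕ), y.1 j = y'.1 j
  iseqv := by
    refine ⟨fun y => Filter.Eventually.of_forall (fun _ => rfl), fun {y y'} h => ?_, fun {y y' y''} h h' => ?_⟩
    · filter_upwards [h] with j h1
      exact h1.symm
    · filter_upwards [h, h'] with j h1 h2
      exact h1.trans h2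

theorem exists_ult (N : ∀ j, Str ι κ (M j)) (hN : ∀ j, Basic (N j)) (hm : ∀ j, Mono (N j)) (U : Ultrafilter ℕ) (x : ∀ j, M j) :
    ∃ (K : Type) (S : Str ι κ K) (m : (∀ j, M j) → K), IsUlt N U x S m := by
  classical
  let K : Type := Quotient (bs N U x)
  let rep : K → (∀ j, M j) := fun a => a.out.1
  have rep_bdd : ∀ a, Bdd N U x (rep a) := fun a => a.out.2
  let m : (∀ j, M j) → K := fun y => if h : Bdd N U x y then Quotient.mk (bs N U x) ⟨y, h⟩
    else Quotient.mk (bs N U x) ⟨_, Bdd.zero hN⟩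
  have m_val : ∀ y (h : Bdd N U x y), m y = Quotient.mk (bs N U x) ⟨y, h⟩ := by
    intro y hy
    simp only [m]
    rw [dif_pos hy]
  have m_eq : ∀ y y', Bdd N U x y → Bdd N U x y' → (m y = m y' ↔ ∀ᶠ j in (U : Filter ℕ), y j = y' j) := by
    intro y y' hy hy'
    rw [m_val y hy, m_val y' hy', Quotient.eq]
    rfl
  have m_rep : ∀ a, m (rep a) = a := by
    intro a
    rw [m_val (rep a) (rep_bdd a)]
    exact Quotient.out_eq a
  have rep_m : ∀ y, Bdd N U x y → ∀ᶠ j in (U : Filter ℕ), rep (m y) j = y j := by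
    intro y hy
    rw [← m_eq _ _ (rep_bdd _) hy, m_rep]
  let S : Str ι κ K :=
    { zero := m (fun j => (N j).zero)
      one := m (fun j => (N j).one)
      add := fun a b => m (fun j => (N j).add (rep a j) (rep b j))
      mul := fun a b => m (fun j => (N j).mul (rep a j) (rep b j))
      fn := fun i a => m (fun j => (N j).fn i (rep a j))
      lt := fun a b => ∀ᶠ j in (U : Filter ℕ), (N j).lt (rep a j) (rep b j)
      rel := fun k a => ∀ᶠ j in (U : Filter ℕ), (N j).rel k (rep a j) }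
  refine ⟨K, S, m, ?_, ?_, m_eq, ?_, ?_⟩
  · intro a
    exact ⟨rep a, rep_bdd a, m_rep a⟩
  · intro n t r hr
    induction t with
    | var i => exact ⟨hr i, rfl⟩
    | zero => exact ⟨Bdd.zero hN, rfl⟩
    | one => exact ⟨Bdd.one hN, rfl⟩
    | add s t ih₁ ih₂ =>
        refine ⟨Bdd.add hN ih₁.1 ih₂.1, ?_⟩
        show m (fun j => (N j).add (rep (s.eval S (fun i => m (fun j => r j i))) j) (rep (t.eval S (fun i => m (fun j => r j i))) j)) = _
        rw [ih₁.2, ih₂.2]
        refine (m_eq _ _ (Bdd.add hN (rep_bdd _) (rep_bdd _)) (Bdd.add hN ih₁.1 ih₂.1)).2 ?_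
        filter_upwards [rep_m _ ih₁.1, rep_m _ ih₂.1] with j h1 h2
        rw [h1, h2]
    | mul s t ih₁ ih₂ =>
        refine ⟨Bdd.mul hN ih₁.1 ih₂.1, ?_⟩
        show m (fun j => (N j).mul (rep (s.eval S (fun i => m (fun j => r j i))) j) (rep (t.eval S (fun i => m (fun j => r j i))) j)) = _
        rw [ih₁.2, ih₂.2]
        refine (m_eq _ _ (Bdd.mul hN (rep_bdd _) (rep_bdd _)) (Bdd.mul hN ih₁.1 ih₂.1)).2 ?_
        filter_upwards [rep_m _ ih₁.1, rep_m _ ih₂.1] with j h1 h2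
        rw [h1, h2]
    | fn i s ih =>
        refine ⟨Bdd.fn hN hm ih.1 i, ?_⟩
        show m (fun j => (N j).fn i (rep (s.eval S (fun i => m (fun j => r j i))) j)) = _
        rw [ih.2]
        refine (m_eq _ _ (Bdd.fn hN hm (rep_bdd _) i) (Bdd.fn hN hm ih.1 i)).2 ?_
        filter_upwards [rep_m _ ih.1] with j h1
        rw [h1]
  · intro y y' hy hy'
    show (∀ᶠ j in (U : Filter ℕ), (N j).lt (rep (m y) j) (rep (m y') j)) ↔ _
    constructor
    · intro h
      filter_upwards [h, rep_m y hy, rep_m y' hy'] with j h1 h2 h3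
      rwa [h2, h3] at h1
    · intro h
      filter_upwards [h, rep_m y hy, rep_m y' hy'] with j h1 h2 h3
      rwa [h2, h3]
  · intro k y hy
    show (∀ᶠ j in (U : Filter ℕ), (N j).rel k (rep (m y) j)) ↔ _
    constructor
    · intro h
      filter_upwards [h, rep_m y hy] with j h1 h2
      rwa [h2] at h1
    · intro h
      filter_upwards [h, rep_m y hy] with j h1 h2
      rwa [h2]

end Pool.Agent.Lib.P548b
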