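import Pool.Agent.Lib.P548b.Game
import Pool.Agent.Lib.P548b.Ult
import Pool.Agent.Lib.P548b.Ax
import Pool.Agent.Lib.P548b.Count

/-!
# Formulas equivalent to bounded formulas are equivalent to bounded formulas of the same rank
-/

set_option autoImplicit false

namespace Pool.Agent.Lib.P548b

variable {ι κ : Type}

/-- A property of points of structures in a class which is determined by finitely many formulas is defined by a formula. -/
theorem bool_comb (C : (M : Type) → Str ι κ M → Prop) (q : ℕ) (θ : ℕ → Fm ι κ 1) (hθ : ∀ i, (θ i).XB ∧ (θ i).rk ≤ q) :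
    ∀ (j : ℕ) (P : (M : Type) → Str ι κ M → M → Prop),
      (∀ (M : Type) (S : Str ι κ M) (x : M) (M' : Type) (S' : Str ι κ M') (x' : M'), C M S → C M' S' →
        (∀ i < j, ((θ i).sat S ![x] ↔ (θ i).sat S' ![x'])) → P M S x → P M' S' x') →
      ∃ η : Fm ι κ 1, η.XB ∧ η.rk ≤ q ∧ ∀ (M : Type) (S : Str ι κ M), C M S → ∀ x : M, (P M S x ↔ η.sat S ![x]) := by
  intro j
  induction j with
  | zero =>
      intro P hP
      by_cases h : ∃ (M : Type) (S : Str ι κ M) (x : M), C M S ∧ P M S x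
      · obtain ⟨M, S, x, hC, hx⟩ := h
        refine ⟨Fm.eq Tm.zero Tm.zero, trivial, Nat.zero_le _, fun M' S' hC' x' => ⟨fun _ => rfl, fun _ => ?_⟩⟩
        exact hP M S x M' S' x' hC hC' (fun i hi => absurd hi (Nat.not_lt_zero _)) hx
      · refine ⟨Fm.not (Fm.eq Tm.zero Tm.zero), trivial, Nat.zero_le _, fun M' S' hC' x' => ⟨fun hx => ?_, fun hx => ?_⟩⟩
        · exact absurd ⟨M', S', x', hC', hx⟩ h
        · exact absurd rfl hx
  | succ j ih =>
      intro P hP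
      obtain ⟨η₁, a1, a2, a3⟩ := ih (fun M S x => ∃ (M' : Type) (S' : Str ι κ M') (x' : M'), C M' S' ∧
          (∀ i < j, ((θ i).sat S ![x] ↔ (θ i).sat S' ![x'])) ∧ (θ j).sat S' ![x'] ∧ P M' S' x') (by
        rintro M S x M₂ S₂ x₂ _ _ h ⟨M', S', x', h1, h2, h3, h4⟩
        exact ⟨M', S', x', h1, fun i hi => (h i hi).symm.trans (h2 i hi), h3, h4⟩)
      obtain ⟨η₀, b1, b2, b3⟩ := ih (fun M S x => ∃ (M' : Type) (S' : Str ι κ M') (x' : M'), C M' S' ∧
          (∀ i < j, ((θ i).sat S ![x] ↔ (θ i).sat S' ![x'])) ∧ ¬ (θ j).sat S' ![x'] ∧ P M' S' x') (by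
        rintro M S x M₂ S₂ x₂ _ _ h ⟨M', S', x', h1, h2, h3, h4⟩
        exact ⟨M', S', x', h1, fun i hi => (h i hi).symm.trans (h2 i hi), h3, h4⟩)
      refine ⟨(Fm.and (θ j) η₁).or (Fm.and (Fm.not (θ j)) η₀), ⟨⟨(hθ j).1, a1⟩, ⟨(hθ j).1, b1⟩⟩,
        max_le (max_le (hθ j).2 a2) (max_le (hθ j).2 b2), ?_⟩
      intro M S hC x
      rw [Fm.sat_or]
      show P M S x ↔ ((θ j).sat S ![x] ∧ η₁.sat S ![x]) ∨ (¬ (θ j).sat S ![x] ∧ η₀.sat S ![x])
      rw [← a3 M S hC x, ← b3 M S hC x]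
      constructor
      · intro hx
        by_cases hj : (θ j).sat S ![x]
        · exact Or.inl ⟨hj, M, S, x, hC, fun _ _ => Iff.rfl, hj, hx⟩
        · exact Or.inr ⟨hj, M, S, x, hC, fun _ _ => Iff.rfl, hj, hx⟩
      · rintro (⟨hj, M', S', x', h1, h2, h3, h4⟩ | ⟨hj, M', S', x', h1, h2, h3, h4⟩)
        · refine hP M' S' x' M S x h1 hC (fun i hi => ?_) h4
          rcases Nat.lt_succ_iff_lt_or_eq.1 hi with h5 | rfl
          · exact (h2 i h5).symm
          · exact ⟨fun _ => hj, fun _ => h3⟩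
        · refine hP M' S' x' M S x h1 hC (fun i hi => ?_) h4
          rcases Nat.lt_succ_iff_lt_or_eq.1 hi with h5 | rfl
          · exact (h2 i h5).symm
          · exact ⟨fun h6 => absurd h6 h3, fun h6 => absurd h6 hj⟩

theorem vec_one {M : ℕ → Type} {K : Type} (m : (∀ j, M j) → K) (x : ∀ j, M j) :
    (fun i : Fin 1 => m (fun j => (![x j] : Fin 1 → M j) i)) = ![m x] := by
  funext i
  rw [Subsingleton.elim i 0]
  rfl

theorem rank_bounding [Countable ι] [Countable κ] (T : (n : ℕ) → Set (Fm ι κ n)) (hT : ∀ n, ∀ θ ∈ T n, θ.Bounded)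
    (φ : Fm ι κ 1) (hφ : φ.Bounded) (q : ℕ) (ψ : Fm ι κ 1) (hψ : ψ.rk ≤ q)
    (h : ∀ (M : Type) (S : Str ι κ M), Mod T S → Coll S → ∀ x : M, (φ.sat S ![x] ↔ ψ.sat S ![x])) :
    ∃ θ : Fm ι κ 1, θ.XB ∧ θ.rk ≤ q ∧
      ∀ (M : Type) (S : Str ι κ M), Mod T S → ∀ x : M, (φ.sat S ![x] ↔ θ.sat S ![x]) := by
  classical
  by_contra hcon
  have hcf : ∀ n, Countable (Fm ι κ n) := fun n => countable_fm ι κ n
  have hct : Countable (Tm ι Unit) := countable_tm ι Unit
  have hne : Nonempty (Fm ι κ 1) := ⟨Fm.eq Tm.zero Tm.zero⟩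
  have hc1 : Countable (Fm ι κ 1) := hcf 1
  obtain ⟨η, hη⟩ := exists_surjective_nat (Fm ι κ 1)
  let θ : ℕ → Fm ι κ 1 := fun i => if (η i).XB ∧ (η i).rk ≤ q then η i else Fm.eq Tm.zero Tm.zero
  have hθ : ∀ i, (θ i).XB ∧ (θ i).rk ≤ q := by
    intro i
    by_cases h1 : (η i).XB ∧ (η i).rk ≤ q
    · have e : θ i = η i := by simp only [θ]; rw [if_pos h1]
      rw [e]; exact h1
    · have e : θ i = Fm.eq Tm.zero Tm.zero := by simp only [θ]; rw [if_neg h1]
      rw [e]; exact ⟨trivial, Nat.zero_le _⟩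
  have hpair : ∀ j : ℕ, ∃ (M : Type) (S : Str ι κ M) (x : M) (M' : Type) (S' : Str ι κ M') (x' : M'), Mod T S ∧ Mod T S' ∧
      (∀ i < j, ((θ i).sat S ![x] ↔ (θ i).sat S' ![x'])) ∧ φ.sat S ![x] ∧ ¬ φ.sat S' ![x'] := by
    intro j
    by_contra hj
    apply hcon
    obtain ⟨ζ, h1, h2, h3⟩ := bool_comb (fun M S => Mod T S) q θ hθ j (fun M S x => φ.sat S ![x]) (by
      intro M S x M' S' x' hM hM' ht hx
      by_contra hx'
      exact hj ⟨M, S, x, M', S', x', hM, hM', ht, hx, hx'⟩)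
    exact ⟨ζ, h1, h2, fun M S hM x => h3 M S hM x⟩
  choose M N x M' N' x' hM hM' htab hx hx' using hpair
  let U : Ultrafilter ℕ := Filter.hyperfilter ℕ
  have hU : (U : Filter ℕ) ≤ Filter.atTop := by
    rw [← Nat.cofinite_eq_atTop]
    exact Filter.hyperfilter_le_cofinite
  have hB : ∀ j, Basic (N j) := fun j => (hM j).idelta0.basic
  have hB' : ∀ j, Basic (N' j) := fun j => (hM' j).idelta0.basic
  obtain ⟨K, S, m, hS⟩ := exists_ult N hB (fun j => (hM j).mono) U x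
  obtain ⟨K', S', m', hS'⟩ := exists_ult N' hB' (fun j => (hM' j).mono) U x'
  have hE : EqR N N' U q (fun j => (![x j] : Fin 1 → M j)) (fun j => (![x' j] : Fin 1 → M' j)) := by
    intro ζ hζ1 hζ2
    obtain ⟨i, rfl⟩ := hη ζ
    have e : θ i = η i := by simp only [θ]; rw [if_pos ⟨hζ1, hζ2⟩]
    have h0 : ∀ᶠ j in (U : Filter ℕ), ((η i).sat (N j) ![x j] ↔ (η i).sat (N' j) ![x' j]) := by
      filter_upwards [hU (Filter.eventually_gt_atTop i)] with j hj
      have h1 := htab j i hj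
      rw [e] at h1
      exact h1
    exact Filter.eventually_congr h0
  have hb1 : ∀ i : Fin 1, Bdd N U x (fun j => (![x j] : Fin 1 → M j) i) := by
    intro i
    rw [Subsingleton.elim i 0]
    exact bdd_x hB
  have hb2 : ∀ i : Fin 1, Bdd N' U x' (fun j => (![x' j] : Fin 1 → M' j) i) := by
    intro i
    rw [Subsingleton.elim i 0]
    exact bdd_x hB'
  have hgame := game hB hB' hS hS' hU hcf ψ q hψ (fun j => ![x j]) (fun j => ![x' j]) (fun _ => rfl) (fun _ => rfl) hb1 hb2 hE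
  rw [vec_one m x, vec_one m' x'] at hgame
  have hs1 : φ.sat S ![m x] := by
    rw [← vec_one m x, los hB hS _ hφ (fun j => ![x j]) hb1]
    exact Filter.Eventually.of_forall hx
  have hs2 : ¬ φ.sat S' ![m' x'] := by
    rw [← vec_one m' x', los hB' hS' _ hφ (fun j => ![x' j]) hb2, ← Ultrafilter.eventually_not]
    exact Filter.Eventually.of_forall hx'
  have h1 := h K S (mod_cut hT hM hS) (coll hB hS hct hU) (m x)
  have h2 := h K' S' (mod_cut hT hM' hS') (coll hB' hS' hct hU) (m' x')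
  exact hs2 (h2.2 (hgame.1 (h1.1 hs1)))

/-- Numerals as terms. -/
def Tm.num {α : Type} : ℕ → Tm ι α
  | 0 => .zero
  | e + 1 => .add (Tm.num e) .one

theorem Tm.num_eval {M α : Type} (S : Str ι κ M) (v : α → M) (e : ℕ) : (Tm.num e : Tm ι α).eval S v = S.num e := by
  induction e with
  | zero => rfl
  | succ e ih => show S.add ((Tm.num e : Tm ι α).eval S v) S.one = _; rw [ih]; rfl

theorem Fm.rk_subst {n : ℕ} (φ : Fm ι κ n) : ∀ {k : ℕ} (σ : Fin n → Tm ι (Fin k)), (φ.subst σ).rk = φ.rk := by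
  induction φ with
  | lt s t => intro k σ; rfl
  | eq s t => intro k σ; rfl
  | rel k t => intro k' σ; rfl
  | not φ ih => intro k σ; exact ih σ
  | and φ ψ ih₁ ih₂ =>
      intro k σ
      show max (φ.subst σ).rk (ψ.subst σ).rk = max φ.rk ψ.rk
      rw [ih₁, ih₂]
  | ex φ ih =>
      intro k σ
      show (φ.subst (liftS σ)).rk + 1 = φ.rk + 1
      rw [ih]
  | exB t φ ih =>
      intro k σ
      show (φ.subst (liftS σ)).rk + 1 = φ.rk + 1
      rw [ih]

theorem rank_bounding_num [Countable ι] [Countable κ] (T : (n : ℕ) → Set (Fm ι κ n)) (hT : ∀ n, ∀ θ ∈ T n, θ.Bounded)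
    (φ : Fm ι κ 1) (hφ : φ.Bounded) (Φ : Fm ι κ 2) (e : ℕ)
    (h : ∀ (M : Type) (S : Str ι κ M), Mod T S → Coll S → ∀ x : M, (φ.sat S ![x] ↔ Φ.sat S ![S.num e, x])) :
    ∃ θ : Fm ι κ 1, θ.XB ∧ θ.rk ≤ Φ.rk ∧
      ∀ (M : Type) (S : Str ι κ M), Mod T S → ∀ x : M, (φ.sat S ![x] ↔ θ.sat S ![x]) := by
  let σ : Fin 2 → Tm ι (Fin 1) := ![Tm.num e, Tm.var 0]
  refine rank_bounding T hT φ hφ Φ.rk (Φ.subst σ) (Fm.rk_subst Φ σ).le ?_
  intro M S hM hC x
  rw [h M S hM hC x, Fm.sat_subst]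
  have e1 : (fun i => (σ i).eval S ![x]) = ![S.num e, x] := by
    funext i
    refine Fin.cases ?_ ?_ i
    · exact Tm.num_eval S _ e
    · intro i
      rw [Subsingleton.elim i 0]
      rfl
  rw [e1]

end Pool.Agent.Lib.P548b
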